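import Mathlib

/-!
# Unique farthest points in Hilbert space: definitions

`Γ` is a well-ordered index set, `HS Γ = ℓ²(Γ)`.  A family `g : Γ → HS Γ → ℝ` is *admissible* if each
`g a` is either the constant `1` or `eps * D g a · η` for some `η` in the unit ball, where
`D g a z x = ∑_{b < a} (ph g b z - ph g b x)²` and `ph g b z = g b z * z b - psi (z b)`.
-/

set_option autoImplicit false

namespace Pool.Agent.Helper893.Klee

universe u

/-- The real Hilbert space `ℓ²(Γ)`. -/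
abbrev HS (Γ : Type u) : Type u := lp (fun _ : Γ => ℝ) 2

/-- positive part -/
noncomputable def pp (y : ℝ) : ℝ := max y 0
/-- negative part -/
noncomputable def np (y : ℝ) : ℝ := max (-y) 0
/-- square of the negative part -/
noncomputable def psi (y : ℝ) : ℝ := (np y) ^ 2
/-- the small constant -/
noncomputable def eps : ℝ := 1 / 4000

section
variable {Γ : Type u} [LinearOrder Γ]

/-- `φ_b(z) = g_b(z) z_b - ψ(z_b)` -/
noncomputable def ph (g : Γ → HS Γ → ℝ) (b : Γ) (z : HS Γ) : ℝ := g b z * z b - psi (z b)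

/-- `D_a(z,x) = ∑_{b<a} (φ_b(z) - φ_b(x))²` -/
noncomputable def D (g : Γ → HS Γ → ℝ) (a : Γ) (z x : HS Γ) : ℝ :=
  ∑' b : Γ, if b < a then (ph g b z - ph g b x) ^ 2 else 0

/-- admissible families -/
def Adm (g : Γ → HS Γ → ℝ) : Prop :=
  ∀ a, (∃ η : HS Γ, ‖η‖ ≤ 1 ∧ ∀ z, g a z = eps * D g a z η) ∨ (∀ z, g a z = 1)

/-- `w(z) = -∑_a [ψ(z_a) + (z_a⁺)² g_a(z)]` -/
noncomputable def w (g : Γ → HS Γ → ℝ) (z : HS Γ) : ℝ :=
  -∑' a : Γ, (psi (z a) + (pp (z a)) ^ 2 * g a z)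

/-- the modulus `E(z,x)` -/
noncomputable def E (g : Γ → HS Γ → ℝ) (z x : HS Γ) : ℝ :=
  ∑' a : Γ, ((np (z a) - np (x a)) ^ 2 / 4 + (pp (z a) - pp (x a)) ^ 2 * (g a z + g a x) / 16)

/-- the closed convex set with unique farthest points -/
def A (g : Γ → HS Γ → ℝ) : Set (HS Γ) := {z | ‖z‖ ≤ 1 ∧ ‖z‖ ^ 2 / 2 ≤ 1 / 2 + w g z}

/-- truncated family -/
noncomputable def trunc (a : Γ) (g : Γ → HS Γ → ℝ) : Γ → HS Γ → ℝ :=
  fun b => if b < a then g b else fun _ => 0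

/-- the rule for the choice of the centre `η` of an active coordinate `a`. -/
def Rule (zen : Γ → HS Γ) (g : Γ → HS Γ → ℝ) (a : Γ) (η : HS Γ) : Prop :=
  ‖η‖ ≤ 1 ∧ (∀ b, a ≤ b → η b = 0) ∧ ‖η‖ ^ 2 / 2 < 1 / 2 + w g η ∧
  (∀ ζ : HS Γ, ζ ∈ A g → (∀ b, a ≤ b → ζ b = 0) →
    w g ζ + inner ℝ (zen a) ζ ≤ w g η + inner ℝ (zen a) η) ∧
  (∀ b, b < a → g b η = 0 → η b < 0)

end

end Pool.Agent.Helper893.Klee
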