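import Pool.Agent.Helper893.Klee.Base

set_option autoImplicit false

namespace Pool.Agent.Helper893.Klee

universe u


section
variable {Γ : Type u} [LinearOrder Γ] [WellFoundedLT Γ]

-- TARGET
theorem hs_summable (z : HS Γ) : Summable (fun a => (z a) ^ 2) := by
  have h := lp.summable_inner (𝕜 := ℝ) z z
  refine h.congr (fun a => ?_)
  rw [real_inner_self_eq_norm_sq, Real.norm_eq_abs, sq_abs]

-- TARGET
theorem hs_norm_sq (z : HS Γ) : ‖z‖ ^ 2 = ∑' a, (z a) ^ 2 := by
  rw [← real_inner_self_eq_norm_sq, lp.inner_eq_tsum]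
  refine tsum_congr (fun a => ?_)
  rw [real_inner_self_eq_norm_sq, Real.norm_eq_abs, sq_abs]

end


end Pool.Agent.Helper893.Klee
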