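import Pool.Agent.Helper893.Klee.Base
import Pool.Agent.Helper893.Klee.P_hs_summable

set_option autoImplicit false

namespace Pool.Agent.Helper893.Klee

universe u


section
variable {Γ : Type u} [LinearOrder Γ] [WellFoundedLT Γ]



theorem g_bounds_psi (y : ℝ) : 0 ≤ psi y ∧ psi y ≤ y ^ 2 := by
  unfold psi np
  refine ⟨sq_nonneg _, ?_⟩
  rcases le_total (-y) 0 with h | h
  · rw [max_eq_right h]; nlinarith [sq_nonneg y]
  · rw [max_eq_left h]; nlinarith

theorem g_bounds_ph (g : Γ → HS Γ → ℝ) (b : Γ) (z : HS Γ) (hz : ‖z‖ ≤ 1)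
    (h0 : 0 ≤ g b z) (h1 : g b z ≤ 1) : (ph g b z) ^ 2 ≤ 4 * (z b) ^ 2 := by
  have hzb : |z b| ≤ 1 := (lp.norm_apply_le_norm (by norm_num) z b).trans hz
  have hp := g_bounds_psi (z b)
  have h2 : |ph g b z| ≤ 2 * |z b| := by
    unfold ph
    have h3 : (z b) ^ 2 ≤ |z b| := by
      rw [← sq_abs]; nlinarith [abs_nonneg (z b)]
    have h4 : |g b z * z b| ≤ |z b| := by
      rw [abs_mul, abs_of_nonneg h0]
      nlinarith [abs_nonneg (z b)]
    calc |g b z * z b - psi (z b)| ≤ |g b z * z b| + |psi (z b)| := abs_sub _ _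
      _ ≤ |z b| + |z b| := by
          rw [abs_of_nonneg hp.1]; linarith
      _ = _ := by ring
  rw [← sq_abs, ← sq_abs (z b)]
  nlinarith [abs_nonneg (ph g b z), abs_nonneg (z b)]

-- TARGET
/-- B1 -/
theorem g_bounds (g : Γ → HS Γ → ℝ) (hg : Adm g) (z : HS Γ) (hz : ‖z‖ ≤ 1) (a : Γ) :
    0 ≤ g a z ∧ g a z ≤ 1 := by
  induction a using WellFoundedLT.induction generalizing z with
  | ind a ih =>
    rcases hg a with ⟨η, hη, he⟩ | he
    · rw [he z]
      have hDnn : 0 ≤ D g a z η := by
        unfold D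
        refine tsum_nonneg fun b => ?_
        split_ifs
        · exact sq_nonneg _
        · exact le_rfl
      have hterm : ∀ b : Γ, (if b < a then (ph g b z - ph g b η) ^ 2 else 0)
          ≤ 8 * (z b) ^ 2 + 8 * (η b) ^ 2 := by
        intro b
        split_ifs with hb
        · have h1 := g_bounds_ph g b z hz (ih b hb z hz).1 (ih b hb z hz).2
          have h2 := g_bounds_ph g b η hη (ih b hb η hη).1 (ih b hb η hη).2
          nlinarith [sq_nonneg (ph g b z + ph g b η)]
        · positivity
      have hs : Summable (fun b : Γ => 8 * (z b) ^ 2 + 8 * (η b) ^ 2) :=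
        ((hs_summable z).mul_left 8).add ((hs_summable η).mul_left 8)
      have hs1 : Summable (fun b : Γ => (if b < a then (ph g b z - ph g b η) ^ 2 else 0)) := by
        refine Summable.of_nonneg_of_le (fun b => ?_) hterm hs
        split_ifs
        · exact sq_nonneg _
        · exact le_rfl
      have hD16 : D g a z η ≤ 16 := by
        calc D g a z η ≤ ∑' b : Γ, (8 * (z b) ^ 2 + 8 * (η b) ^ 2) := hs1.tsum_le_tsum hterm hs
          _ = 8 * ‖z‖ ^ 2 + 8 * ‖η‖ ^ 2 := by
              rw [((hs_summable z).mul_left 8).tsum_add ((hs_summable η).mul_left 8),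
                tsum_mul_left, tsum_mul_left, ← hs_norm_sq, ← hs_norm_sq]
          _ ≤ 16 := by nlinarith [norm_nonneg z, norm_nonneg η]
      unfold eps
      constructor
      · positivity
      · linarith
    · rw [he z]; norm_num

end


end Pool.Agent.Helper893.Klee
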