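import Pool.Agent.Helper893.Klee.Base
import Pool.Agent.Helper893.Klee.P_g_bounds
import Pool.Agent.Helper893.Klee.P_hs_summable

set_option autoImplicit false

namespace Pool.Agent.Helper893.Klee

universe u


section
variable {Γ : Type u} [LinearOrder Γ] [WellFoundedLT Γ]




theorem E_nonneg_np_lip (y x : ℝ) : (np y - np x) ^ 2 ≤ (y - x) ^ 2 := by
  unfold np
  rcases max_cases (-y) 0 with ⟨h1, h2⟩ | ⟨h1, h2⟩ <;>
  rcases max_cases (-x) 0 with ⟨h3, h4⟩ | ⟨h3, h4⟩ <;> rw [h1, h3] <;> nlinarith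

theorem E_nonneg_pp_lip (y x : ℝ) : (pp y - pp x) ^ 2 ≤ (y - x) ^ 2 := by
  unfold pp
  rcases max_cases y 0 with ⟨h1, h2⟩ | ⟨h1, h2⟩ <;>
  rcases max_cases x 0 with ⟨h3, h4⟩ | ⟨h3, h4⟩ <;> rw [h1, h3] <;> nlinarith

theorem E_nonneg_term (g : Γ → HS Γ → ℝ) (hg : Adm g) (z x : HS Γ) (hz : ‖z‖ ≤ 1) (hx : ‖x‖ ≤ 1)
    (a : Γ) :
    0 ≤ (np (z a) - np (x a)) ^ 2 / 4 + (pp (z a) - pp (x a)) ^ 2 * (g a z + g a x) / 16 := by
  have h1 := g_bounds g hg z hz a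
  have h2 := g_bounds g hg x hx a
  have h3 : 0 ≤ g a z + g a x := by linarith
  positivity

theorem E_nonneg_term_le (g : Γ → HS Γ → ℝ) (hg : Adm g) (z x : HS Γ) (hz : ‖z‖ ≤ 1)
    (hx : ‖x‖ ≤ 1) (a : Γ) :
    (np (z a) - np (x a)) ^ 2 / 4 + (pp (z a) - pp (x a)) ^ 2 * (g a z + g a x) / 16 ≤
      (z - x : HS Γ) a ^ 2 / 2 := by
  have h1 := g_bounds g hg z hz a
  have h2 := g_bounds g hg x hx a
  have h5 := E_nonneg_np_lip (z a) (x a)
  have h6 := E_nonneg_pp_lip (z a) (x a)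
  have h7 : (z - x : HS Γ) a = z a - x a := rfl
  rw [h7]
  have h8 : (pp (z a) - pp (x a)) ^ 2 * (g a z + g a x) ≤ (z a - x a) ^ 2 * 2 :=
    mul_le_mul h6 (by linarith) (by linarith) (sq_nonneg _)
  nlinarith [sq_nonneg (z a - x a)]

theorem E_nonneg_summable (g : Γ → HS Γ → ℝ) (hg : Adm g) (z x : HS Γ) (hz : ‖z‖ ≤ 1)
    (hx : ‖x‖ ≤ 1) :
    Summable (fun a : Γ =>
      (np (z a) - np (x a)) ^ 2 / 4 + (pp (z a) - pp (x a)) ^ 2 * (g a z + g a x) / 16) :=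
  Summable.of_nonneg_of_le (E_nonneg_term g hg z x hz hx) (E_nonneg_term_le g hg z x hz hx)
    ((hs_summable (z - x)).div_const 2)

-- TARGET
/-- E1 -/
theorem E_nonneg (g : Γ → HS Γ → ℝ) (hg : Adm g) (z x : HS Γ) (hz : ‖z‖ ≤ 1) (hx : ‖x‖ ≤ 1) :
    0 ≤ E g z x := by
  unfold E
  exact tsum_nonneg (E_nonneg_term g hg z x hz hx)

-- TARGET
/-- E2 -/
theorem E_le (g : Γ → HS Γ → ℝ) (hg : Adm g) (z x : HS Γ) (hz : ‖z‖ ≤ 1) (hx : ‖x‖ ≤ 1) :
    E g z x ≤ ‖z - x‖ ^ 2 / 2 := by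
  rw [hs_norm_sq (z - x), ← tsum_div_const]
  unfold E
  exact (E_nonneg_summable g hg z x hz hx).tsum_le_tsum (E_nonneg_term_le g hg z x hz hx)
    ((hs_summable (z - x)).div_const 2)

-- TARGET
/-- E3 -/
theorem E_zero (g : Γ → HS Γ → ℝ) (hg : Adm g) (z x : HS Γ) (hz : ‖z‖ ≤ 1) (hx : ‖x‖ ≤ 1)
    (h : E g z x = 0) (a : Γ) :
    np (z a) = np (x a) ∧ (pp (z a) = pp (x a) ∨ (g a z = 0 ∧ g a x = 0)) := by
  have hs := E_nonneg_summable g hg z x hz hx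
  have h0 : HasSum (fun a : Γ =>
      (np (z a) - np (x a)) ^ 2 / 4 + (pp (z a) - pp (x a)) ^ 2 * (g a z + g a x) / 16) 0 := by
    have := hs.hasSum
    unfold E at h
    rwa [h] at this
  have h1 := (hasSum_zero_iff_of_nonneg (E_nonneg_term g hg z x hz hx)).1 h0
  have h2 := congrFun h1 a
  simp only [Pi.zero_apply] at h2
  have b1 := g_bounds g hg z hz a
  have b2 := g_bounds g hg x hx a
  have p1 : 0 ≤ (np (z a) - np (x a)) ^ 2 := sq_nonneg _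
  have p2 : 0 ≤ (pp (z a) - pp (x a)) ^ 2 * (g a z + g a x) :=
    mul_nonneg (sq_nonneg _) (by linarith)
  have q1 : (np (z a) - np (x a)) ^ 2 = 0 := by linarith
  have q2 : (pp (z a) - pp (x a)) ^ 2 * (g a z + g a x) = 0 := by linarith
  refine ⟨?_, ?_⟩
  · have := pow_eq_zero_iff (two_ne_zero) |>.1 q1
    linarith
  · rcases mul_eq_zero.1 q2 with r | r
    · left
      have := pow_eq_zero_iff (two_ne_zero) |>.1 r
      linarith
    · right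
      constructor <;> linarith

end


end Pool.Agent.Helper893.Klee
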