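import Pool.Agent.Helper893.Klee.Base
import Pool.Agent.Helper893.Klee.P_g_bounds
import Pool.Agent.Helper893.Klee.P_hs_summable

set_option autoImplicit false

namespace Pool.Agent.Helper893.Klee

universe u


section
variable {Γ : Type u} [LinearOrder Γ] [WellFoundedLT Γ]




theorem key_lip_ph (g : Γ → HS Γ → ℝ) (hg : Adm g) (z : HS Γ) (hz : ‖z‖ ≤ 1) (b : Γ) :
    |ph g b z| ≤ 2 * |z b| := by
  obtain ⟨h0, h1⟩ := g_bounds g hg z hz b
  have hb : |z b| ≤ 1 := by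
    have h2 := lp.norm_apply_le_norm (by norm_num) z b
    rw [Real.norm_eq_abs] at h2
    exact h2.trans hz
  have hpsi : |psi (z b)| ≤ |z b| := by
    unfold psi np
    rw [abs_of_nonneg (sq_nonneg _)]
    have h3 : 0 ≤ max (-z b) 0 := le_max_right _ _
    have h4 : max (-z b) 0 ≤ |z b| := max_le (neg_le_abs _) (abs_nonneg _)
    nlinarith
  have h5 : |g b z * z b| ≤ |z b| := by
    rw [abs_mul, abs_of_nonneg h0]
    exact mul_le_of_le_one_left (abs_nonneg _) h1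
  unfold ph
  have h6 := abs_sub (g b z * z b) (psi (z b))
  linarith

theorem key_lip_sum (g : Γ → HS Γ → ℝ) (hg : Adm g) (z x : HS Γ) (hz : ‖z‖ ≤ 1) (hx : ‖x‖ ≤ 1)
    (a : Γ) : Summable (fun b => (if b < a then ph g b z - ph g b x else 0) ^ 2) := by
  have hs : Summable (fun b => 8 * (z b) ^ 2 + 8 * (x b) ^ 2) :=
    ((hs_summable z).mul_left 8).add ((hs_summable x).mul_left 8)
  refine Summable.of_nonneg_of_le (fun b => sq_nonneg _) (fun b => ?_) hs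
  split_ifs
  · have h1 := key_lip_ph g hg z hz b
    have h2 := key_lip_ph g hg x hx b
    have h3 : |ph g b z - ph g b x| ≤ 2 * |z b| + 2 * |x b| := (abs_sub _ _).trans (by linarith)
    rw [← sq_abs (ph g b z - ph g b x), ← sq_abs (z b), ← sq_abs (x b)]
    have h4 := abs_nonneg (ph g b z - ph g b x)
    have h5 : |ph g b z - ph g b x| ^ 2 ≤ (2 * |z b| + 2 * |x b|) ^ 2 :=
      pow_le_pow_left₀ h4 h3 2
    nlinarith [sq_nonneg (|z b| - |x b|)]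
  · nlinarith [sq_nonneg (z b), sq_nonneg (x b)]

/-- the difference vector -/
noncomputable def key_lip_U (g : Γ → HS Γ → ℝ) (hg : Adm g) (z x : HS Γ) (hz : ‖z‖ ≤ 1)
    (hx : ‖x‖ ≤ 1) (a : Γ) : HS Γ :=
  ⟨fun b => if b < a then ph g b z - ph g b x else 0, by
    apply memℓp_gen
    have h := key_lip_sum g hg z x hz hx a
    refine h.congr (fun b => ?_)
    rw [Real.norm_eq_abs, show ((2 : ENNReal)).toReal = ((2 : ℕ) : ℝ) by norm_num,
      Real.rpow_natCast, sq_abs]⟩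

theorem key_lip_U_norm (g : Γ → HS Γ → ℝ) (hg : Adm g) (z x : HS Γ) (hz : ‖z‖ ≤ 1)
    (hx : ‖x‖ ≤ 1) (a : Γ) : ‖key_lip_U g hg z x hz hx a‖ ^ 2 = D g a z x := by
  rw [hs_norm_sq, D]
  apply tsum_congr
  intro b
  show (if b < a then ph g b z - ph g b x else 0) ^ 2 = _
  split_ifs
  · rfl
  · simp

-- TARGET
/-- K0: Lipschitz property of the square root of `D`. -/
theorem key_lip (g : Γ → HS Γ → ℝ) (hg : Adm g) (z x : HS Γ) (hz : ‖z‖ ≤ 1) (hx : ‖x‖ ≤ 1)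
    (a : Γ) : (g a z - g a x) ^ 2 ≤ 2 * eps * D g a z x * (g a z + g a x) := by
  have hD : 0 ≤ D g a z x := by
    rw [← key_lip_U_norm g hg z x hz hx a]
    positivity
  have heps : (0 : ℝ) < eps := by unfold eps; norm_num
  rcases hg a with ⟨η, hη, hgη⟩ | h1
  · set U1 := key_lip_U g hg z η hz hη a with hU1
    set U2 := key_lip_U g hg x η hx hη a with hU2
    have e1 : ‖U1‖ ^ 2 = D g a z η := key_lip_U_norm g hg z η hz hη a
    have e2 : ‖U2‖ ^ 2 = D g a x η := key_lip_U_norm g hg x η hx hη a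
    have e3 : U1 - U2 = key_lip_U g hg z x hz hx a := by
      apply lp.ext
      funext b
      show (if b < a then ph g b z - ph g b η else 0) - (if b < a then ph g b x - ph g b η else 0)
        = (if b < a then ph g b z - ph g b x else 0)
      split_ifs
      · ring
      · ring
    have e4 : ‖U1 - U2‖ ^ 2 = D g a z x := by rw [e3]; exact key_lip_U_norm g hg z x hz hx a
    have e5 : ‖U1‖ ^ 2 - ‖U2‖ ^ 2 = inner ℝ (U1 - U2) (U1 + U2) := by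
      rw [inner_sub_left, inner_add_right, inner_add_right, real_inner_self_eq_norm_sq,
        real_inner_self_eq_norm_sq, real_inner_comm U1 U2]
      ring
    have e6 : |inner ℝ (U1 - U2) (U1 + U2)| ≤ ‖U1 - U2‖ * ‖U1 + U2‖ :=
      abs_real_inner_le_norm _ _
    have e7 := parallelogram_law_with_norm ℝ U1 U2
    rw [hgη z, hgη x, ← e1, ← e2, ← e4]
    have e8 : (‖U1‖ ^ 2 - ‖U2‖ ^ 2) ^ 2 ≤ ‖U1 - U2‖ ^ 2 * ‖U1 + U2‖ ^ 2 := by
      rw [e5, ← sq_abs, ← mul_pow]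
      exact pow_le_pow_left₀ (abs_nonneg _) e6 2
    have e9 : ‖U1 + U2‖ ^ 2 ≤ 2 * (‖U1‖ ^ 2 + ‖U2‖ ^ 2) := by nlinarith [norm_nonneg (U1 - U2)]
    have e10 : ‖U1 - U2‖ ^ 2 * ‖U1 + U2‖ ^ 2 ≤
        ‖U1 - U2‖ ^ 2 * (2 * (‖U1‖ ^ 2 + ‖U2‖ ^ 2)) :=
      mul_le_mul_of_nonneg_left e9 (sq_nonneg _)
    have e11 : eps ^ 2 * (‖U1‖ ^ 2 - ‖U2‖ ^ 2) ^ 2 ≤
        eps ^ 2 * (‖U1 - U2‖ ^ 2 * (2 * (‖U1‖ ^ 2 + ‖U2‖ ^ 2))) :=
      mul_le_mul_of_nonneg_left (e8.trans e10) (sq_nonneg _)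
    calc (eps * ‖U1‖ ^ 2 - eps * ‖U2‖ ^ 2) ^ 2
        = eps ^ 2 * (‖U1‖ ^ 2 - ‖U2‖ ^ 2) ^ 2 := by ring
      _ ≤ eps ^ 2 * (‖U1 - U2‖ ^ 2 * (2 * (‖U1‖ ^ 2 + ‖U2‖ ^ 2))) := e11
      _ = 2 * eps * ‖U1 - U2‖ ^ 2 * (eps * ‖U1‖ ^ 2 + eps * ‖U2‖ ^ 2) := by ring
  · rw [h1 z, h1 x]
    nlinarith

end


end Pool.Agent.Helper893.Klee
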