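import Pool.Agent.Helper893.Klee.Base
import Pool.Agent.Helper893.Klee.P_E_nonneg
import Pool.Agent.Helper893.Klee.P_g_bounds
import Pool.Agent.Helper893.Klee.P_hs_summable
import Pool.Agent.Helper893.Klee.P_key_lip

set_option autoImplicit false

namespace Pool.Agent.Helper893.Klee

universe u


section
variable {Γ : Type u} [LinearOrder Γ] [WellFoundedLT Γ]






theorem key_induct_np_abs (y y' : ℝ) : (np y - np y') ^ 2 ≤ (y - y') ^ 2 := by
  unfold np
  rcases max_cases (-y) 0 with ⟨h1, h2⟩ | ⟨h1, h2⟩ <;>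
  rcases max_cases (-y') 0 with ⟨h3, h4⟩ | ⟨h3, h4⟩ <;> rw [h1, h3] <;> nlinarith

theorem key_induct_pp_abs (y y' : ℝ) : (pp y - pp y') ^ 2 ≤ (y - y') ^ 2 := by
  unfold pp
  rcases max_cases (y) 0 with ⟨h1, h2⟩ | ⟨h1, h2⟩ <;>
  rcases max_cases (y') 0 with ⟨h3, h4⟩ | ⟨h3, h4⟩ <;> rw [h1, h3] <;> nlinarith

theorem key_induct_pn (y : ℝ) : pp y - np y = y := by
  unfold pp np
  rcases max_cases (y) 0 with ⟨h1, h2⟩ | ⟨h1, h2⟩ <;>
  rcases max_cases (-y) 0 with ⟨h3, h4⟩ | ⟨h3, h4⟩ <;> rw [h1, h3] <;> linarith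

theorem key_induct_np_bd (y : ℝ) (hy : |y| ≤ 1) : 0 ≤ np y ∧ np y ≤ 1 ∧ np y ≤ |y| := by
  unfold np
  have := abs_le.1 hy
  refine ⟨le_max_right _ _, max_le (by linarith) (by norm_num), max_le (neg_le_abs y) (abs_nonneg y)⟩

/-- F3 -/
theorem key_induct_F3 (y y' : ℝ) :
    |(psi y + psi y') / 2 - psi ((1 / 2 : ℝ) * (y + y'))| ≤ (np y - np y') ^ 2 / 2 := by
  unfold psi np
  rw [abs_le]
  rcases max_cases (-y) 0 with ⟨h1, h2⟩ | ⟨h1, h2⟩ <;>
  rcases max_cases (-y') 0 with ⟨h3, h4⟩ | ⟨h3, h4⟩ <;>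
  rcases max_cases (-((1 / 2 : ℝ) * (y + y'))) 0 with ⟨h5, h6⟩ | ⟨h5, h6⟩ <;>
  rw [h1, h3, h5] <;> constructor <;> nlinarith [sq_nonneg (y - y'), sq_nonneg (y + y'), sq_nonneg y, sq_nonneg y']

/-- |Z| ≤ 2|y| -/
theorem key_induct_Z (y a : ℝ) (hy : |y| ≤ 1) (ha : 0 ≤ a ∧ a ≤ 1) :
    (a * y - psi y) ^ 2 ≤ 4 * y ^ 2 := by
  obtain ⟨h0, h1, h2⟩ := key_induct_np_bd y hy
  have h3 : psi y ≤ |y| := by
    unfold psi
    nlinarith
  have h3' : 0 ≤ psi y := by unfold psi; positivity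
  have h4 : |a * y - psi y| ≤ 2 * |y| := by
    calc |a * y - psi y| ≤ |a * y| + |psi y| := abs_sub _ _
      _ = a * |y| + psi y := by rw [abs_mul, abs_of_nonneg ha.1, abs_of_nonneg h3']
      _ ≤ 2 * |y| := by nlinarith [abs_nonneg y]
  have := sq_le_sq' (by linarith [neg_abs_le (a * y - psi y)]) ((le_abs_self _).trans h4)
  nlinarith [sq_abs y]

/-- the local bound for step 1 -/
theorem key_induct_L1 (y y' a b E : ℝ) (hy : |y| ≤ 1) (hy' : |y'| ≤ 1) (ha : 0 ≤ a ∧ a ≤ 1)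
    (hb : 0 ≤ b ∧ b ≤ 1) (hE : 0 ≤ E) (hab : (a - b) ^ 2 ≤ (1 / 20) * (a + b) * E) :
    ((a * y - psi y) - (b * y' - psi y')) ^ 2 ≤
      96 * ((np y - np y') ^ 2 / 4 + (pp y - pp y') ^ 2 * (a + b) / 16) +
        (1 / 10) * E * (y + y') ^ 2 := by
  have h1 : (y - y') ^ 2 * (a + b) ≤
      32 * ((np y - np y') ^ 2 / 4 + (pp y - pp y') ^ 2 * (a + b) / 16) := by
    have e1 : y - y' = (pp y - pp y') - (np y - np y') := by
      linarith [key_induct_pn y, key_induct_pn y']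
    rw [e1]
    have h2 : ((pp y - pp y') - (np y - np y')) ^ 2 ≤ 2 * (pp y - pp y') ^ 2 + 2 * (np y - np y') ^ 2 := by
      nlinarith [sq_nonneg ((pp y - pp y') + (np y - np y'))]
    have h3 := mul_le_mul_of_nonneg_right h2 (show 0 ≤ a + b by linarith [ha.1, hb.1])
    have h4 := mul_le_mul_of_nonneg_left (show a + b ≤ 2 by linarith [ha.2, hb.2]) (show 0 ≤ 2 * (np y - np y') ^ 2 by positivity)
    nlinarith
  have h2 : (psi y - psi y') ^ 2 ≤
      16 * ((np y - np y') ^ 2 / 4 + (pp y - pp y') ^ 2 * (a + b) / 16) := by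
    obtain ⟨g0, g1, g2⟩ := key_induct_np_bd y hy
    obtain ⟨g0', g1', g2'⟩ := key_induct_np_bd y' hy'
    unfold psi
    have e : ((np y) ^ 2 - (np y') ^ 2) ^ 2 = (np y - np y') ^ 2 * (np y + np y') ^ 2 := by ring
    rw [e]
    have h5 : (np y + np y') ^ 2 ≤ 4 := by nlinarith
    have h6 := mul_le_mul_of_nonneg_left h5 (sq_nonneg (np y - np y'))
    have h7 : 0 ≤ (pp y - pp y') ^ 2 * (a + b) := mul_nonneg (sq_nonneg _) (by linarith [ha.1, hb.1])
    nlinarith
  have h3 : (a * y - b * y') ^ 2 ≤ (a + b) * (y - y') ^ 2 + (a - b) ^ 2 * (y + y') ^ 2 / 2 := by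
    have e : a * y - b * y' = (a + b) * (y - y') / 2 + (a - b) * (y + y') / 2 := by ring
    rw [e]
    have h4 : ((a + b) * (y - y') / 2 + (a - b) * (y + y') / 2) ^ 2 ≤
      2 * ((a + b) * (y - y') / 2) ^ 2 + 2 * ((a - b) * (y + y') / 2) ^ 2 := by
      nlinarith [sq_nonneg ((a + b) * (y - y') / 2 - (a - b) * (y + y') / 2)]
    have h5 : (a + b) ^ 2 ≤ 2 * (a + b) := by nlinarith [ha.1, ha.2, hb.1, hb.2]
    have h6 := mul_le_mul_of_nonneg_right h5 (sq_nonneg (y - y'))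
    nlinarith
  have h4 : (a - b) ^ 2 ≤ (1 / 10) * E := by
    have : (a + b) * E ≤ 2 * E := mul_le_mul_of_nonneg_right (by linarith [ha.2, hb.2]) hE
    nlinarith
  have h5 := mul_le_mul_of_nonneg_right h4 (sq_nonneg (y + y'))
  have e : (a * y - psi y) - (b * y' - psi y') = (a * y - b * y') - (psi y - psi y') := by ring
  rw [e]
  nlinarith [sq_nonneg ((a * y - b * y') + (psi y - psi y'))]

theorem key_induct_F1 (y y' a b : ℝ) (ha : 0 ≤ a ∧ a ≤ 1) (hb : 0 ≤ b ∧ b ≤ 1) :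
    (y - y') ^ 2 * (a + b) ≤
      32 * ((np y - np y') ^ 2 / 4 + (pp y - pp y') ^ 2 * (a + b) / 16) := by
  have e1 : y - y' = (pp y - pp y') - (np y - np y') := by
    linarith [key_induct_pn y, key_induct_pn y']
  rw [e1]
  have h2 : ((pp y - pp y') - (np y - np y')) ^ 2 ≤ 2 * (pp y - pp y') ^ 2 + 2 * (np y - np y') ^ 2 := by
    nlinarith [sq_nonneg ((pp y - pp y') + (np y - np y'))]
  have h3 := mul_le_mul_of_nonneg_right h2 (show 0 ≤ a + b by linarith [ha.1, hb.1])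
  have h4 := mul_le_mul_of_nonneg_left (show a + b ≤ 2 by linarith [ha.2, hb.2]) (show 0 ≤ 2 * (np y - np y') ^ 2 by positivity)
  nlinarith

theorem key_induct_U (Z X M V y y' s v : ℝ) (hZ : Z ^ 2 ≤ 4 * y ^ 2) (hX : X ^ 2 ≤ 4 * y' ^ 2)
    (hM : M ^ 2 ≤ 4 * s ^ 2) (hV : V ^ 2 ≤ 4 * v ^ 2) :
    ((Z + X) / 2 + M - 2 * V) ^ 2 ≤ 8 * y ^ 2 + 8 * y' ^ 2 + 16 * s ^ 2 + 32 * v ^ 2 := by
  have h1 : ((Z + X) / 2 + M - 2 * V) ^ 2 ≤ 4 * (Z ^ 2 / 2 + X ^ 2 / 2 + M ^ 2 + 2 * V ^ 2) := by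
    have e : 4 * (Z ^ 2 / 2 + X ^ 2 / 2 + M ^ 2 + 2 * V ^ 2) - ((Z + X) / 2 + M - 2 * V) ^ 2 =
      (Z - X) ^ 2 / 4 + (Z - M) ^ 2 / 2 + (X - M) ^ 2 / 2 + (Z + V) ^ 2 + (X + V) ^ 2 + 2 * (M + V) ^ 2 := by
      ring
    have := sq_nonneg (Z - X)
    have := sq_nonneg (Z - M)
    have := sq_nonneg (X - M)
    have := sq_nonneg (Z + V)
    have := sq_nonneg (X + V)
    have := sq_nonneg (M + V)
    linarith
  linarith

theorem key_induct_b1 (s t U E : ℝ) (hE : 0 ≤ E) (ht : |t| ≤ E / 20) :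
    |s * t * U| ≤ (E / 40) * (s ^ 2 + U ^ 2) := by
  rw [abs_mul, abs_mul]
  have h3 : |s| * |U| ≤ (s ^ 2 + U ^ 2) / 2 := by
    nlinarith [sq_nonneg (|s| - |U|), sq_abs s, sq_abs U]
  calc |s| * |t| * |U| = |t| * (|s| * |U|) := by ring
    _ ≤ (E / 20) * (|s| * |U|) := mul_le_mul_of_nonneg_right ht (by positivity)
    _ ≤ (E / 20) * ((s ^ 2 + U ^ 2) / 2) := mul_le_mul_of_nonneg_left h3 (by positivity)
    _ = _ := by ring

theorem key_induct_b2 (h a b U E Eb : ℝ) (hE : 0 ≤ E) (hEb : 0 ≤ Eb)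
    (hab : (a - b) ^ 2 ≤ (1 / 20) * (a + b) * E) (k1 : h ^ 2 * (a + b) ≤ 8 * Eb) :
    |h * (a - b) / 2 * U| ≤ 2 * Eb + (E / 80) * U ^ 2 := by
  have k2 : |h * (a - b) * U| ≤ 4 * Eb + (E / 40) * U ^ 2 := by
    apply abs_le_of_sq_le_sq _ (by positivity)
    have k3 : (h * (a - b) * U) ^ 2 = (h ^ 2 * U ^ 2) * (a - b) ^ 2 := by ring
    rw [k3]
    have k4 : (h ^ 2 * U ^ 2) * (a - b) ^ 2 ≤ (h ^ 2 * U ^ 2) * ((1 / 20) * (a + b) * E) :=
      mul_le_mul_of_nonneg_left hab (by positivity)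
    have k5 : (h ^ 2 * U ^ 2) * ((1 / 20) * (a + b) * E) = (h ^ 2 * (a + b)) * (U ^ 2 * E / 20) := by ring
    have k6 : (h ^ 2 * (a + b)) * (U ^ 2 * E / 20) ≤ (8 * Eb) * (U ^ 2 * E / 20) :=
      mul_le_mul_of_nonneg_right k1 (by positivity)
    have k7 : (4 * Eb + (E / 40) * U ^ 2) ^ 2 - (8 * Eb) * (U ^ 2 * E / 20) =
        (4 * Eb - (E / 40) * U ^ 2) ^ 2 := by ring
    have k8 := sq_nonneg (4 * Eb - (E / 40) * U ^ 2)
    linarith
  have k8 : h * (a - b) / 2 * U = (h * (a - b) * U) / 2 := by ring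
  rw [k8, abs_div, abs_of_pos (show (0:ℝ) < 2 by norm_num)]
  linarith

theorem key_induct_fin (A B C R Eb E s U W : ℝ) (b1 : |A| ≤ (E / 40) * (s ^ 2 + U ^ 2))
    (b2 : |B| ≤ 2 * Eb + (E / 80) * U ^ 2) (b3 : |C| ≤ 16 * Eb) (hR0 : 0 ≤ R)
    (hR : R ≤ 24 * Eb + (1 / 10) * E * s ^ 2) (hE : 0 ≤ E) (hEb : 0 ≤ Eb) (hU : U ^ 2 ≤ W) :
    |R + (A + B - C)| ≤ 42 * Eb + E * ((1 / 8) * s ^ 2 + (3 / 80) * W) := by
  have h1 : |R + (A + B - C)| ≤ |R| + |A| + |B| + |C| := by
    calc |R + (A + B - C)| ≤ |R| + |A + B - C| := abs_add_le _ _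
      _ ≤ |R| + (|A + B| + |C|) := by gcongr; exact abs_sub _ _
      _ ≤ |R| + ((|A| + |B|) + |C|) := by gcongr; exact abs_add_le _ _
      _ = _ := by ring
  rw [abs_of_nonneg hR0] at h1
  have h2 := mul_le_mul_of_nonneg_left hU hE
  have e1 : (E / 40) * (s ^ 2 + U ^ 2) = (1 / 40) * (E * s ^ 2) + (1 / 40) * (E * U ^ 2) := by ring
  have e2 : (E / 80) * U ^ 2 = (1 / 80) * (E * U ^ 2) := by ring
  have e3 : (1 / 10) * E * s ^ 2 = (1 / 10) * (E * s ^ 2) := by ring
  have e4 : E * ((1 / 8) * s ^ 2 + (3 / 80) * W) = (1 / 8) * (E * s ^ 2) + (3 / 80) * (E * W) := by ring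
  rw [e1] at b1; rw [e2] at b2; rw [e3] at hR; rw [e4]
  linarith

/-- the local bound for step 3 -/
theorem key_induct_L2 (y y' v a b e c E : ℝ) (hy : |y| ≤ 1) (hy' : |y'| ≤ 1) (hv : |v| ≤ 1)
    (ha : 0 ≤ a ∧ a ≤ 1) (hb : 0 ≤ b ∧ b ≤ 1) (he : 0 ≤ e ∧ e ≤ 1) (hc : 0 ≤ c ∧ c ≤ 1)
    (hE : 0 ≤ E) (hab : (a - b) ^ 2 ≤ (1 / 20) * (a + b) * E)
    (hae : |(a + b) / 2 - e| ≤ E / 20) :
    |((((a * y - psi y) - (c * v - psi v)) ^ 2 + ((b * y' - psi y') - (c * v - psi v)) ^ 2) / 2 -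
      ((e * ((1 / 2 : ℝ) * (y + y')) - psi ((1 / 2 : ℝ) * (y + y'))) - (c * v - psi v)) ^ 2)| ≤
      42 * ((np y - np y') ^ 2 / 4 + (pp y - pp y') ^ 2 * (a + b) / 16) +
        E * ((1 / 8) * ((1 / 2 : ℝ) * (y + y')) ^ 2 + (3 / 80) * (8 * y ^ 2 + 8 * y' ^ 2 +
          16 * ((1 / 2 : ℝ) * (y + y')) ^ 2 + 32 * v ^ 2)) := by
  have hL1 := key_induct_L1 y y' a b E hy hy' ha hb hE hab
  have hF3 := key_induct_F3 y y'
  have hF1 := key_induct_F1 y y' a b ha hb
  have hEb0 : 0 ≤ (np y - np y') ^ 2 / 4 + (pp y - pp y') ^ 2 * (a + b) / 16 := by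
    have := mul_nonneg (sq_nonneg (pp y - pp y')) (show 0 ≤ a + b by linarith [ha.1, hb.1])
    have := sq_nonneg (np y - np y')
    linarith
  have hF3' : |(psi y + psi y') / 2 - psi ((1 / 2 : ℝ) * (y + y'))| ≤
      2 * ((np y - np y') ^ 2 / 4 + (pp y - pp y') ^ 2 * (a + b) / 16) := by
    refine hF3.trans ?_
    have := mul_nonneg (sq_nonneg (pp y - pp y')) (show 0 ≤ a + b by linarith [ha.1, hb.1])
    linarith
  generalize (np y - np y') ^ 2 / 4 + (pp y - pp y') ^ 2 * (a + b) / 16 = Eb at *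
  have hsb : |(1 / 2 : ℝ) * (y + y')| ≤ 1 := by
    rw [abs_le]
    have := abs_le.1 hy
    have := abs_le.1 hy'
    constructor <;> linarith
  have hy2 : y = ((1 / 2 : ℝ) * (y + y')) + (y - y') / 2 := by ring
  have hy2' : y' = ((1 / 2 : ℝ) * (y + y')) - (y - y') / 2 := by ring
  have hs4 : (y + y') ^ 2 = 4 * ((1 / 2 : ℝ) * (y + y')) ^ 2 := by ring
  rw [hs4] at hL1
  have hZ := key_induct_Z y a hy ha
  have hX := key_induct_Z y' b hy' hb
  have hV := key_induct_Z v c hv hc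
  have hM := key_induct_Z ((1 / 2 : ℝ) * (y + y')) e hsb he
  have hs2 : ((1 / 2 : ℝ) * (y + y')) ^ 2 ≤ 1 := (sq_le_one_iff_abs_le_one _).2 hsb
  have a1 : y ^ 2 ≤ 1 := (sq_le_one_iff_abs_le_one y).2 hy
  have a2 : y' ^ 2 ≤ 1 := (sq_le_one_iff_abs_le_one y').2 hy'
  have a3 : v ^ 2 ≤ 1 := (sq_le_one_iff_abs_le_one v).2 hv
  generalize (1 / 2 : ℝ) * (y + y') = s at *
  have k1 : ((y - y') / 2) ^ 2 * (a + b) ≤ 8 * Eb := by
    have : ((y - y') / 2) ^ 2 * (a + b) = ((y - y') ^ 2 * (a + b)) / 4 := by ring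
    rw [this]; linarith
  have hdec0 : (a * y - psi y + (b * y' - psi y')) / 2 - (e * s - psi s) =
      s * ((a + b) / 2 - e) + (y - y') / 2 * (a - b) / 2 - ((psi y + psi y') / 2 - psi s) := by
    have e1 : a * y + b * y' = (a + b) * s + (a - b) * ((y - y') / 2) := by
      have : a * y = a * (s + (y - y') / 2) := by rw [← hy2]
      have h2 : b * y' = b * (s - (y - y') / 2) := by rw [← hy2']
      rw [this, h2]; ring
    linear_combination (1 / 2 : ℝ) * e1
  generalize (y - y') / 2 = h at *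
  generalize psi y = py at *
  generalize psi y' = py' at *
  generalize psi s = ps at *
  generalize psi v = pv at *
  have hdec : (((a * y - py) - (c * v - pv)) ^ 2 + ((b * y' - py') - (c * v - pv)) ^ 2) / 2 -
      ((e * s - ps) - (c * v - pv)) ^ 2 =
      ((a * y - py) - (b * y' - py')) ^ 2 / 4 + (s * ((a + b) / 2 - e) * ((a * y - py + (b * y' - py')) / 2 + (e * s - ps) - 2 * (c * v - pv)) + h * (a - b) / 2 * ((a * y - py + (b * y' - py')) / 2 + (e * s - ps) - 2 * (c * v - pv)) -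
        ((py + py') / 2 - ps) * ((a * y - py + (b * y' - py')) / 2 + (e * s - ps) - 2 * (c * v - pv))) := by
    have h2 : (((a * y - py) - (c * v - pv)) ^ 2 + ((b * y' - py') - (c * v - pv)) ^ 2) / 2 -
      ((e * s - ps) - (c * v - pv)) ^ 2 =
      ((a * y - py) - (b * y' - py')) ^ 2 / 4 + ((a * y - py + (b * y' - py')) / 2 - (e * s - ps)) *
        ((a * y - py + (b * y' - py')) / 2 + (e * s - ps) - 2 * (c * v - pv)) := by ring
    rw [h2, hdec0]; ring
  have hU2 := key_induct_U (a * y - py) (b * y' - py') (e * s - ps) (c * v - pv) y y' s v hZ hX hM hV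
  have hR : ((a * y - py) - (b * y' - py')) ^ 2 / 4 ≤ 24 * Eb + (1 / 10) * E * s ^ 2 := by linarith
  have hR0 : 0 ≤ ((a * y - py) - (b * y' - py')) ^ 2 / 4 := by positivity
  rw [hdec]
  generalize ((a * y - py) - (b * y' - py')) ^ 2 / 4 = R at *
  generalize (a * y - py + (b * y' - py')) / 2 + (e * s - ps) - 2 * (c * v - pv) = U at *
  have hU8 : |U| ≤ 8 := by
    have hU64 : U ^ 2 ≤ 8 ^ 2 := by linarith
    exact abs_le_of_sq_le_sq hU64 (by norm_num)
  have b3 : |((py + py') / 2 - ps) * U| ≤ 16 * Eb := by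
    rw [abs_mul]
    calc |(py + py') / 2 - ps| * |U| ≤ (2 * Eb) * 8 :=
          mul_le_mul hF3' hU8 (abs_nonneg _) (by positivity)
      _ = _ := by ring
  exact key_induct_fin _ _ _ _ Eb E s U _ (key_induct_b1 s _ U E hE hae)
    (key_induct_b2 h a b U E Eb hE hEb0 hab k1) b3 hR0 hR hE hEb0 hU2

theorem key_induct_coord (z : HS Γ) (hz : ‖z‖ ≤ 1) (b : Γ) : |z b| ≤ 1 := by
  have h1 : (z b) ^ 2 ≤ ‖z‖ ^ 2 := by
    rw [hs_norm_sq]
    exact (hs_summable z).le_tsum b (fun c _ => sq_nonneg _)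
  have h2 : ‖z‖ ^ 2 ≤ 1 := by nlinarith [norm_nonneg z]
  exact (sq_le_one_iff_abs_le_one _).1 (h1.trans h2)

theorem key_induct_D_summable (g : Γ → HS Γ → ℝ) (hg : Adm g) (a : Γ) (z x : HS Γ)
    (hz : ‖z‖ ≤ 1) (hx : ‖x‖ ≤ 1) :
    Summable (fun b : Γ => if b < a then (ph g b z - ph g b x) ^ 2 else 0) := by
  have hs : Summable (fun b : Γ => 8 * (z b) ^ 2 + 8 * (x b) ^ 2) :=
    ((hs_summable z).mul_left 8).add ((hs_summable x).mul_left 8)
  refine Summable.of_nonneg_of_le (fun b => ?_) (fun b => ?_) hs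
  · split_ifs <;> positivity
  · have h1 := key_induct_Z (z b) (g b z) (key_induct_coord z hz b) (g_bounds g hg z hz b)
    have h2 := key_induct_Z (x b) (g b x) (key_induct_coord x hx b) (g_bounds g hg x hx b)
    split_ifs
    · unfold ph
      nlinarith [sq_nonneg ((g b z * z b - psi (z b)) + (g b x * x b - psi (x b)))]
    · positivity

theorem key_induct_E_summable (g : Γ → HS Γ → ℝ) (hg : Adm g) (z x : HS Γ)
    (hz : ‖z‖ ≤ 1) (hx : ‖x‖ ≤ 1) :
    Summable (fun a : Γ => ((np (z a) - np (x a)) ^ 2 / 4 + (pp (z a) - pp (x a)) ^ 2 * (g a z + g a x) / 16)) := by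
  have hs : Summable (fun b : Γ => 2 * (z b) ^ 2 + 2 * (x b) ^ 2) :=
    ((hs_summable z).mul_left 2).add ((hs_summable x).mul_left 2)
  refine Summable.of_nonneg_of_le (fun b => ?_) (fun b => ?_) hs
  · have h1 := g_bounds g hg z hz b
    have h2 := g_bounds g hg x hx b
    have := mul_nonneg (sq_nonneg (pp (z b) - pp (x b))) (show 0 ≤ g b z + g b x by linarith [h1.1, h2.1])
    positivity
  · have h1 := g_bounds g hg z hz b
    have h2 := g_bounds g hg x hx b
    have h3 := key_induct_np_abs (z b) (x b)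
    have h4 := key_induct_pp_abs (z b) (x b)
    have h5 : (pp (z b) - pp (x b)) ^ 2 * (g b z + g b x) ≤ (z b - x b) ^ 2 * 2 :=
      mul_le_mul h4 (by linarith [h1.2, h2.2]) (by linarith [h1.1, h2.1]) (sq_nonneg _)
    nlinarith [sq_nonneg (z b + x b), sq_nonneg (z b - x b)]

-- TARGET
/-- K1: the induction. -/
theorem key_induct (g : Γ → HS Γ → ℝ) (hg : Adm g) (z x : HS Γ) (hz : ‖z‖ ≤ 1) (hx : ‖x‖ ≤ 1)
    (a : Γ) :
    (g a z - g a x) ^ 2 ≤ (1 / 20) * (g a z + g a x) * E g z x ∧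
    |(g a z + g a x) / 2 - g a ((1 / 2 : ℝ) • (z + x))| ≤ E g z x / 20 := by
  induction a using WellFoundedLT.induction with
  | ind a ih =>
  have hE := E_nonneg g hg z x hz hx
  set m : HS Γ := (1 / 2 : ℝ) • (z + x) with hm
  have hm1 : ‖m‖ ≤ 1 := by
    rw [hm, norm_smul]
    have := norm_add_le z x
    rw [Real.norm_of_nonneg (by norm_num : (0:ℝ) ≤ 1 / 2)]
    linarith
  have hmb : ∀ b, m b = (1 / 2 : ℝ) * (z b + x b) := by
    intro b
    rw [hm, lp.coeFn_smul, lp.coeFn_add]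
    simp only [Pi.smul_apply, Pi.add_apply, smul_eq_mul]
  have hnz : ∑' b, (z b) ^ 2 ≤ 1 := by
    rw [← hs_norm_sq]; nlinarith [norm_nonneg z]
  have hnx : ∑' b, (x b) ^ 2 ≤ 1 := by
    rw [← hs_norm_sq]; nlinarith [norm_nonneg x]
  have hnm : ∑' b, (m b) ^ 2 ≤ 1 := by
    rw [← hs_norm_sq]; nlinarith [norm_nonneg m]
  have hEs := key_induct_E_summable g hg z x hz hx
  have hEd : E g z x = ∑' a : Γ, ((np (z a) - np (x a)) ^ 2 / 4 + (pp (z a) - pp (x a)) ^ 2 * (g a z + g a x) / 16) := rfl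
  set Eb : Γ → ℝ := fun a => ((np (z a) - np (x a)) ^ 2 / 4 + (pp (z a) - pp (x a)) ^ 2 * (g a z + g a x) / 16) with hEb
  set Ev := E g z x with hEv
  have hEb0 : ∀ b, 0 ≤ Eb b := by
    intro b
    have h1 := g_bounds g hg z hz b
    have h2 := g_bounds g hg x hx b
    have := mul_nonneg (sq_nonneg (pp (z b) - pp (x b))) (show 0 ≤ g b z + g b x by linarith [h1.1, h2.1])
    simp only [hEb]
    positivity
  -- STEP 1
  have step1 : D g a z x ≤ 97 * Ev := by
    unfold D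
    have hsum : Summable (fun b => 96 * Eb b + (2 / 5) * Ev * (m b) ^ 2) :=
      (hEs.mul_left 96).add ((hs_summable m).mul_left _)
    calc ∑' b : Γ, (if b < a then (ph g b z - ph g b x) ^ 2 else 0)
        ≤ ∑' b : Γ, (96 * Eb b + (2 / 5) * Ev * (m b) ^ 2) := by
          refine Summable.tsum_le_tsum (fun b => ?_) (key_induct_D_summable g hg a z x hz hx) hsum
          have h0 := hEb0 b
          split_ifs with hba
          · have := key_induct_L1 (z b) (x b) (g b z) (g b x) Ev (key_induct_coord z hz b)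
              (key_induct_coord x hx b) (g_bounds g hg z hz b) (g_bounds g hg x hx b) hE (ih b hba).1
            unfold ph
            have e : (z b + x b) ^ 2 = 4 * (m b) ^ 2 := by rw [hmb]; ring
            rw [e] at this
            simp only [hEb]
            linarith
          · positivity
      _ = 96 * Ev + (2 / 5) * Ev * ∑' b, (m b) ^ 2 := by
          rw [Summable.tsum_add (hEs.mul_left 96) ((hs_summable m).mul_left _), tsum_mul_left, tsum_mul_left, hEd]
      _ ≤ 97 * Ev := by nlinarith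
  have hgz := g_bounds g hg z hz a
  have hgx := g_bounds g hg x hx a
  have hsum0 : 0 ≤ g a z + g a x := by linarith [hgz.1, hgx.1]
  refine ⟨?_, ?_⟩
  · -- STEP 2
    have h1 := key_lip g hg z x hz hx a
    refine h1.trans ?_
    unfold eps
    have h2 := mul_le_mul_of_nonneg_right step1 hsum0
    have h3 : 0 ≤ (g a z + g a x) * Ev := mul_nonneg hsum0 hE
    nlinarith
  · -- STEP 3
    rcases hg a with ⟨η, hη, hga⟩ | h1
    · have hnη : ∑' b, (η b) ^ 2 ≤ 1 := by
        rw [← hs_norm_sq]; nlinarith [norm_nonneg η]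
      have sz := key_induct_D_summable g hg a z η hz hη
      have sx := key_induct_D_summable g hg a x η hx hη
      have sm := key_induct_D_summable g hg a m η hm1 hη
      rw [hga z, hga x, hga m]
      have key : (eps * D g a z η + eps * D g a x η) / 2 - eps * D g a m η =
          eps * ∑' b : Γ, ((1 / 2 : ℝ) * ((if b < a then (ph g b z - ph g b η) ^ 2 else 0) +
            (if b < a then (ph g b x - ph g b η) ^ 2 else 0)) - (if b < a then (ph g b m - ph g b η) ^ 2 else 0)) := by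
        rw [Summable.tsum_sub ((sz.add sx).mul_left _) sm, tsum_mul_left, Summable.tsum_add sz sx]
        unfold D
        ring
      rw [key, abs_mul]
      have heps : |eps| = 1 / 4000 := by unfold eps; norm_num
      rw [heps]
      set F : Γ → ℝ := fun b => ((1 / 2 : ℝ) * ((if b < a then (ph g b z - ph g b η) ^ 2 else 0) +
            (if b < a then (ph g b x - ph g b η) ^ 2 else 0)) - (if b < a then (ph g b m - ph g b η) ^ 2 else 0)) with hF
      have hFs : Summable F := ((sz.add sx).mul_left _).sub sm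
      set B : Γ → ℝ := fun b => 42 * Eb b + Ev * ((1 / 8) * (m b) ^ 2 + (3 / 80) * (8 * (z b) ^ 2 + 8 * (x b) ^ 2 +
          16 * (m b) ^ 2 + 32 * (η b) ^ 2)) with hB
      have hBs1 : Summable (fun b => (1 / 8 : ℝ) * (m b) ^ 2 + (3 / 80) * (8 * (z b) ^ 2 + 8 * (x b) ^ 2 +
          16 * (m b) ^ 2 + 32 * (η b) ^ 2)) := by
        refine ((hs_summable m).mul_left _).add (Summable.mul_left _ ?_)
        exact ((((hs_summable z).mul_left _).add ((hs_summable x).mul_left _)).add ((hs_summable m).mul_left _)).add ((hs_summable η).mul_left _)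
      have hBs : Summable B := (hEs.mul_left 42).add (hBs1.mul_left Ev)
      have hFB : ∀ b, |F b| ≤ B b := by
        intro b
        have h0 := hEb0 b
        by_cases hba : b < a
        · have h2 := key_induct_L2 (z b) (x b) (η b) (g b z) (g b x) (g b m) (g b η) Ev
            (key_induct_coord z hz b) (key_induct_coord x hx b) (key_induct_coord η hη b)
            (g_bounds g hg z hz b) (g_bounds g hg x hx b) (g_bounds g hg m hm1 b)
            (g_bounds g hg η hη b) hE (ih b hba).1 (ih b hba).2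
          simp only [hF, hB, if_pos hba, hEb]
          rw [← hmb b] at h2
          unfold ph
          have e : (1 / 2 : ℝ) * ((g b z * z b - psi (z b) - (g b η * η b - psi (η b))) ^ 2 +
              (g b x * x b - psi (x b) - (g b η * η b - psi (η b))) ^ 2) -
              (g b m * m b - psi (m b) - (g b η * η b - psi (η b))) ^ 2 =
              ((g b z * z b - psi (z b) - (g b η * η b - psi (η b))) ^ 2 +
              (g b x * x b - psi (x b) - (g b η * η b - psi (η b))) ^ 2) / 2 -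
              (g b m * m b - psi (m b) - (g b η * η b - psi (η b))) ^ 2 := by ring
          rw [e]
          exact h2
        · simp only [hF, hB, if_neg hba]
          norm_num
          positivity
      have hT : |∑' b, F b| ≤ ∑' b, B b := by
        have h1 : ∑' b, F b ≤ ∑' b, B b :=
          Summable.tsum_le_tsum (fun b => (le_abs_self _).trans (hFB b)) hFs hBs
        have h2 : ∑' b, (-F b) ≤ ∑' b, B b :=
          Summable.tsum_le_tsum (fun b => (neg_le_abs _).trans (hFB b)) hFs.neg hBs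
        rw [tsum_neg] at h2
        exact abs_le.2 ⟨by linarith, h1⟩
      have hBt : ∑' b, B b ≤ 50 * Ev := by
        have e1 : ∑' b, B b = 42 * Ev + Ev * ((1 / 8) * (∑' b, (m b) ^ 2) + (3 / 80) * (8 * (∑' b, (z b) ^ 2) + 8 * (∑' b, (x b) ^ 2) +
          16 * (∑' b, (m b) ^ 2) + 32 * (∑' b, (η b) ^ 2))) := by
          simp only [hB]
          rw [Summable.tsum_add (hEs.mul_left 42) (hBs1.mul_left Ev), tsum_mul_left, tsum_mul_left, ← hEd,
            Summable.tsum_add ((hs_summable m).mul_left _) (Summable.mul_left _ (((((hs_summable z).mul_left _).add ((hs_summable x).mul_left _)).add ((hs_summable m).mul_left _)).add ((hs_summable η).mul_left _))),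
            tsum_mul_left, tsum_mul_left,
            Summable.tsum_add ((((hs_summable z).mul_left _).add ((hs_summable x).mul_left _)).add ((hs_summable m).mul_left _)) ((hs_summable η).mul_left _),
            Summable.tsum_add (((hs_summable z).mul_left _).add ((hs_summable x).mul_left _)) ((hs_summable m).mul_left _),
            Summable.tsum_add ((hs_summable z).mul_left _) ((hs_summable x).mul_left _),
            tsum_mul_left, tsum_mul_left, tsum_mul_left, tsum_mul_left]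
        rw [e1]
        have h5 : (1 / 8) * (∑' b, (m b) ^ 2) + (3 / 80) * (8 * (∑' b, (z b) ^ 2) + 8 * (∑' b, (x b) ^ 2) +
          16 * (∑' b, (m b) ^ 2) + 32 * (∑' b, (η b) ^ 2)) ≤ 8 := by linarith
        have := mul_le_mul_of_nonneg_left h5 hE
        linarith
      linarith
    · rw [h1 z, h1 x, h1 m]
      norm_num
      positivity

end


end Pool.Agent.Helper893.Klee
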