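import Pool.Agent.Helper893.Klee.Base
import Pool.Agent.Helper893.Klee.P_E_nonneg
import Pool.Agent.Helper893.Klee.P_g_bounds
import Pool.Agent.Helper893.Klee.P_hs_summable
import Pool.Agent.Helper893.Klee.P_key_induct

set_option autoImplicit false

namespace Pool.Agent.Helper893.Klee

universe u


section
variable {Γ : Type u} [LinearOrder Γ] [WellFoundedLT Γ]






omit [LinearOrder Γ] [WellFoundedLT Γ] in
theorem key_J_scal (y y' a b e En s : ℝ) (hs : s = (1 / 2) * (y + y')) (ha : 0 ≤ a) (hb : 0 ≤ b)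
    (he : 0 ≤ e) (hE : 0 ≤ En) (h1 : (a - b) ^ 2 ≤ (1 / 20) * (a + b) * En)
    (h2 : |(a + b) / 2 - e| ≤ En / 20) :
    ((np y - np y') ^ 2 / 4 + (pp y - pp y') ^ 2 * (a + b) / 16) - (En / 10) * ((y ^ 2 + y' ^ 2) / 2) ≤
      ((psi y + (pp y) ^ 2 * a) + (psi y' + (pp y') ^ 2 * b)) / 2 - (psi s + (pp s) ^ 2 * e) := by
  have hnp0 : ∀ t : ℝ, 0 ≤ np t := fun t => le_max_right _ _
  have hpp0 : ∀ t : ℝ, 0 ≤ pp t := fun t => le_max_right _ _
  have hnps : np s ≤ (np y + np y') / 2 := by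
    unfold np
    apply max_le
    · rw [hs]
      have h1 := le_max_left (-y) 0
      have h2 := le_max_left (-y') 0
      linarith
    · have h1 := le_max_right (-y) 0
      have h2 := le_max_right (-y') 0
      linarith
  have hpps : pp s ≤ (pp y + pp y') / 2 := by
    unfold pp
    apply max_le
    · rw [hs]
      have h1 := le_max_left y 0
      have h2 := le_max_left y' 0
      linarith
    · have h1 := le_max_right y 0
      have h2 := le_max_right y' 0
      linarith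
  have hppsq : ∀ t : ℝ, (pp t) ^ 2 ≤ t ^ 2 := by
    intro t
    unfold pp
    rcases le_total t 0 with h | h
    · rw [max_eq_right h]; nlinarith [sq_nonneg t]
    · rw [max_eq_left h]
  have hb1 : (np y - np y') ^ 2 / 4 ≤ (psi y + psi y') / 2 - psi s := by
    unfold psi
    have h3 : (np s) ^ 2 ≤ ((np y + np y') / 2) ^ 2 := by
      have := hnp0 s
      gcongr
    nlinarith
  set σ : ℝ := (pp y + pp y') / 2 with hσ
  set τ : ℝ := (pp y - pp y') / 2 with hτ
  have hy : pp y = σ + τ := by rw [hσ, hτ]; ring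
  have hy' : pp y' = σ - τ := by rw [hσ, hτ]; ring
  have hσ0 : 0 ≤ σ := by
    have := hpp0 y
    have := hpp0 y'
    rw [hσ]; linarith
  have h3 : (pp s) ^ 2 * e ≤ σ ^ 2 * e := by
    have := hpp0 s
    gcongr
  have h4 : σ ^ 2 * (-(En / 20)) ≤ σ ^ 2 * ((a + b) / 2 - e) := by
    apply mul_le_mul_of_nonneg_left _ (sq_nonneg _)
    exact (abs_le.1 h2).1
  have hP : 0 ≤ σ ^ 2 * En / 20 := by positivity
  have hQ : 0 ≤ τ ^ 2 * (a + b) / 4 := by positivity
  have h5 : |σ * τ * (a - b)| ≤ σ ^ 2 * En / 20 + τ ^ 2 * (a + b) / 4 := by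
    apply abs_le_of_sq_le_sq _ (by positivity)
    have h6 : (σ * τ * (a - b)) ^ 2 ≤ (σ * τ) ^ 2 * ((1 / 20) * (a + b) * En) := by
      rw [mul_pow]
      exact mul_le_mul_of_nonneg_left h1 (sq_nonneg _)
    have h7 : (σ * τ) ^ 2 * ((1 / 20) * (a + b) * En) =
        4 * (σ ^ 2 * En / 20) * (τ ^ 2 * (a + b) / 4) := by ring
    nlinarith [sq_nonneg (σ ^ 2 * En / 20 - τ ^ 2 * (a + b) / 4)]
  have h8 := (abs_le.1 h5).1
  have h9 : σ ^ 2 ≤ (y ^ 2 + y' ^ 2) / 2 := by
    have e1 := hppsq y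
    have e2 := hppsq y'
    rw [hσ]
    nlinarith [sq_nonneg (pp y - pp y')]
  have h10 : (En / 10) * σ ^ 2 ≤ (En / 10) * ((y ^ 2 + y' ^ 2) / 2) :=
    mul_le_mul_of_nonneg_left h9 (by positivity)
  have h11 : (pp y - pp y') ^ 2 * (a + b) / 16 = τ ^ 2 * (a + b) / 4 := by rw [hτ]; ring
  rw [h11]
  have h12 : ((pp y) ^ 2 * a + (pp y') ^ 2 * b) / 2 - σ ^ 2 * e =
      σ ^ 2 * ((a + b) / 2 - e) + σ * τ * (a - b) + τ ^ 2 * (a + b) / 2 := by
    rw [hy, hy']; ring
  linarith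

-- TARGET
/-- K2: the key inequality. -/
theorem key_J (g : Γ → HS Γ → ℝ) (hg : Adm g) (z x : HS Γ) (hz : ‖z‖ ≤ 1) (hx : ‖x‖ ≤ 1) :
    E g z x / 2 ≤ w g ((1 / 2 : ℝ) • (z + x)) - (w g z + w g x) / 2 := by
  have hE0 := E_nonneg g hg z x hz hx
  set m : HS Γ := (1 / 2 : ℝ) • (z + x) with hm
  have hmn : ‖m‖ ≤ 1 := by
    rw [hm, norm_smul]
    have := norm_add_le z x
    rw [Real.norm_eq_abs, abs_of_pos (by norm_num : (0 : ℝ) < 1 / 2)]
    linarith
  have hma : ∀ a, m a = (1 / 2) * (z a + x a) := by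
    intro a
    rw [hm, lp.coeFn_smul, Pi.smul_apply, lp.coeFn_add, Pi.add_apply, smul_eq_mul]
  have hnp0 : ∀ t : ℝ, 0 ≤ np t := fun t => le_max_right _ _
  have hpp0 : ∀ t : ℝ, 0 ≤ pp t := fun t => le_max_right _ _
  have hppsq : ∀ t : ℝ, (pp t) ^ 2 ≤ t ^ 2 := by
    intro t
    unfold pp
    rcases le_total t 0 with h | h
    · rw [max_eq_right h]; nlinarith [sq_nonneg t]
    · rw [max_eq_left h]
  have hnpsq : ∀ t : ℝ, (np t) ^ 2 ≤ t ^ 2 := by
    intro t
    unfold np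
    rcases le_total t 0 with h | h
    · rw [max_eq_left (by linarith)]; nlinarith [sq_nonneg t]
    · rw [max_eq_right (by linarith)]; nlinarith [sq_nonneg t]
  have hsw : ∀ v : HS Γ, ‖v‖ ≤ 1 → Summable (fun a : Γ => psi (v a) + (pp (v a)) ^ 2 * g a v) := by
    intro v hv
    refine Summable.of_nonneg_of_le ?_ ?_ ((hs_summable v).mul_left 2)
    · intro a
      have := (g_bounds g hg v hv a).1
      unfold psi
      positivity
    · intro a
      obtain ⟨h1, h2⟩ := g_bounds g hg v hv a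
      have h3 := hppsq (v a)
      have h4 := hnpsq (v a)
      unfold psi
      have h5 : (pp (v a)) ^ 2 * g a v ≤ (pp (v a)) ^ 2 * 1 :=
        mul_le_mul_of_nonneg_left h2 (sq_nonneg _)
      linarith
  have hsE : Summable (fun a : Γ => (np (z a) - np (x a)) ^ 2 / 4 +
      (pp (z a) - pp (x a)) ^ 2 * (g a z + g a x) / 16) := by
    refine Summable.of_nonneg_of_le ?_ ?_ (((hs_summable z).add (hs_summable x)))
    · intro a
      have h1 := (g_bounds g hg z hz a).1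
      have h2 := (g_bounds g hg x hx a).1
      positivity
    · intro a
      obtain ⟨h1, h1'⟩ := g_bounds g hg z hz a
      obtain ⟨h2, h2'⟩ := g_bounds g hg x hx a
      have e1 := hppsq (z a)
      have e2 := hppsq (x a)
      have e3 := hnpsq (z a)
      have e4 := hnpsq (x a)
      have h5 : (pp (z a) - pp (x a)) ^ 2 * (g a z + g a x) ≤ (pp (z a) - pp (x a)) ^ 2 * 2 :=
        mul_le_mul_of_nonneg_left (by linarith) (sq_nonneg _)
      have h6 : (pp (z a) - pp (x a)) ^ 2 ≤ 2 * ((pp (z a)) ^ 2 + (pp (x a)) ^ 2) := by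
        nlinarith [sq_nonneg (pp (z a) + pp (x a))]
      have h7 : (np (z a) - np (x a)) ^ 2 ≤ 2 * ((np (z a)) ^ 2 + (np (x a)) ^ 2) := by
        nlinarith [sq_nonneg (np (z a) + np (x a))]
      linarith [sq_nonneg (z a), sq_nonneg (x a)]
  have hlhs : Summable (fun a : Γ => ((np (z a) - np (x a)) ^ 2 / 4 +
      (pp (z a) - pp (x a)) ^ 2 * (g a z + g a x) / 16) -
      (E g z x / 10) * (((z a) ^ 2 + (x a) ^ 2) / 2)) :=
    hsE.sub ((((hs_summable z).add (hs_summable x)).div_const 2).mul_left _)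
  have hrhs : Summable (fun a : Γ => ((psi (z a) + (pp (z a)) ^ 2 * g a z) +
      (psi (x a) + (pp (x a)) ^ 2 * g a x)) / 2 - (psi (m a) + (pp (m a)) ^ 2 * g a m)) :=
    (((hsw z hz).add (hsw x hx)).div_const 2).sub (hsw m hmn)
  have hle := hlhs.tsum_le_tsum (fun a => by
    obtain ⟨h1, h2⟩ := key_induct g hg z x hz hx a
    exact key_J_scal (z a) (x a) (g a z) (g a x) (g a m) (E g z x) (m a) (hma a)
      (g_bounds g hg z hz a).1 (g_bounds g hg x hx a).1 (g_bounds g hg m hmn a).1 hE0 h1 h2) hrhs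
  have hL : ∑' a : Γ, (((np (z a) - np (x a)) ^ 2 / 4 +
      (pp (z a) - pp (x a)) ^ 2 * (g a z + g a x) / 16) -
      (E g z x / 10) * (((z a) ^ 2 + (x a) ^ 2) / 2)) =
      E g z x - (E g z x / 10) * ((‖z‖ ^ 2 + ‖x‖ ^ 2) / 2) := by
    rw [hsE.tsum_sub ((((hs_summable z).add (hs_summable x)).div_const 2).mul_left _),
      tsum_mul_left, tsum_div_const, (hs_summable z).tsum_add (hs_summable x), ← hs_norm_sq,
      ← hs_norm_sq]
    rfl
  have hR : ∑' a : Γ, (((psi (z a) + (pp (z a)) ^ 2 * g a z) +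
      (psi (x a) + (pp (x a)) ^ 2 * g a x)) / 2 - (psi (m a) + (pp (m a)) ^ 2 * g a m)) =
      w g m - (w g z + w g x) / 2 := by
    rw [(((hsw z hz).add (hsw x hx)).div_const 2).tsum_sub (hsw m hmn), tsum_div_const,
      (hsw z hz).tsum_add (hsw x hx)]
    unfold w
    ring
  rw [hL, hR] at hle
  have h1 : ‖z‖ ^ 2 ≤ 1 := by
    have := norm_nonneg z
    nlinarith
  have h2 : ‖x‖ ^ 2 ≤ 1 := by
    have := norm_nonneg x
    nlinarith
  have h3 : (E g z x / 10) * ((‖z‖ ^ 2 + ‖x‖ ^ 2) / 2) ≤ (E g z x / 10) * 1 :=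
    mul_le_mul_of_nonneg_left (by linarith) (by positivity)
  linarith

end


end Pool.Agent.Helper893.Klee
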