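import Pool.Agent.Helper893.Klee.Base

set_option autoImplicit false

namespace Pool.Agent.Helper893.Klee

universe u


section
variable {Γ : Type u} [LinearOrder Γ] [WellFoundedLT Γ]

-- TARGET
/-- B2 -/
theorem g_local (g : Γ → HS Γ → ℝ) (hg : Adm g) (a : Γ) (z x : HS Γ)
    (h : ∀ b, b < a → z b = x b) : g a z = g a x := by
  revert z x
  induction a using WellFoundedLT.induction with
  | ind a ih =>
    intro z x h
    rcases hg a with ⟨η, -, hgη⟩ | h1
    · rw [hgη z, hgη x]
      congr 1
      unfold D
      refine tsum_congr fun b => ?_
      by_cases hb : b < a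
      · rw [if_pos hb, if_pos hb]
        have e1 : g b z = g b x := ih b hb z x fun c hc => h c (hc.trans hb)
        have e2 : z b = x b := h b hb
        have e3 : ph g b z = ph g b x := by unfold ph; rw [e1, e2]
        rw [e3]
      · rw [if_neg hb, if_neg hb]
    · rw [h1, h1]

end


end Pool.Agent.Helper893.Klee
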