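import Pool.Agent.Helper893.Klee.Base
import Pool.Agent.Helper893.Klee.P_g_bounds
import Pool.Agent.Helper893.Klee.P_g_local
import Pool.Agent.Helper893.Klee.P_hs_summable

set_option autoImplicit false

namespace Pool.Agent.Helper893.Klee

universe u


section
variable {Γ : Type u} [LinearOrder Γ] [WellFoundedLT Γ]





theorem w_bounds_aux (y : ℝ) : psi y + (pp y) ^ 2 = y ^ 2 ∧ 0 ≤ psi y ∧ 0 ≤ (pp y) ^ 2 := by
  refine ⟨?_, sq_nonneg _, sq_nonneg _⟩
  unfold psi np pp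
  rcases le_total y 0 with h | h
  · rw [max_eq_left (by linarith : (0 : ℝ) ≤ -y), max_eq_right h]
    ring
  · rw [max_eq_right (by linarith : -y ≤ (0 : ℝ)), max_eq_left h]
    ring

theorem w_bounds_term (g : Γ → HS Γ → ℝ) (hg : Adm g) (z : HS Γ) (hz : ‖z‖ ≤ 1) (a : Γ) :
    0 ≤ psi (z a) + (pp (z a)) ^ 2 * g a z ∧
      psi (z a) + (pp (z a)) ^ 2 * g a z ≤ (z a) ^ 2 := by
  obtain ⟨h1, h2, h3⟩ := w_bounds_aux (z a)
  obtain ⟨h4, h5⟩ := g_bounds g hg z hz a
  constructor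
  · positivity
  · nlinarith

theorem w_bounds_summable (g : Γ → HS Γ → ℝ) (hg : Adm g) (z : HS Γ) (hz : ‖z‖ ≤ 1) :
    Summable (fun a => psi (z a) + (pp (z a)) ^ 2 * g a z) :=
  Summable.of_nonneg_of_le (fun a => (w_bounds_term g hg z hz a).1)
    (fun a => (w_bounds_term g hg z hz a).2) (hs_summable z)

-- TARGET
/-- W1 -/
theorem w_bounds (g : Γ → HS Γ → ℝ) (hg : Adm g) (z : HS Γ) (hz : ‖z‖ ≤ 1) :
    -‖z‖ ^ 2 ≤ w g z ∧ w g z ≤ 0 := by
  unfold w
  constructor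
  · rw [hs_norm_sq]
    exact neg_le_neg ((w_bounds_summable g hg z hz).tsum_le_tsum
      (fun a => (w_bounds_term g hg z hz a).2) (hs_summable z))
  · exact neg_nonpos_of_nonneg (tsum_nonneg (fun a => (w_bounds_term g hg z hz a).1))

-- TARGET
/-- W3: truncation increases `w`. -/
theorem w_trunc_le (g : Γ → HS Γ → ℝ) (hg : Adm g) (a : Γ) (z z' : HS Γ) (hz : ‖z‖ ≤ 1)
    (hz' : ‖z'‖ ≤ 1)
    (h1 : ∀ b, b < a → z' b = z b) (h2 : ∀ b, a ≤ b → z' b = 0) : w g z ≤ w g z' := by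
  unfold w
  refine neg_le_neg ((w_bounds_summable g hg z' hz').tsum_le_tsum (fun b => ?_)
    (w_bounds_summable g hg z hz))
  rcases lt_or_ge b a with h | h
  · rw [h1 b h, g_local g hg b z' z (fun c hc => h1 c (hc.trans h))]
  · rw [h2 b h]
    have h3 : psi 0 + (pp 0) ^ 2 * g b z' = 0 := by
      unfold psi np pp
      simp
    rw [h3]
    exact (w_bounds_term g hg z hz b).1

-- TARGET
/-- W4: `w` only depends on the terms that are not known to vanish. -/
theorem w_congr (g : Γ → HS Γ → ℝ) (z x : HS Γ)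
    (h : ∀ a, psi (z a) + (pp (z a)) ^ 2 * g a z = psi (x a) + (pp (x a)) ^ 2 * g a x) :
    w g z = w g x := by
  unfold w
  rw [tsum_congr h]

end


end Pool.Agent.Helper893.Klee
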