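import Pool.Agent.Helper893.Klee.Base
import Pool.Agent.Helper893.Klee.P_E_nonneg
import Pool.Agent.Helper893.Klee.P_g_bounds
import Pool.Agent.Helper893.Klee.P_hs_summable
import Pool.Agent.Helper893.Klee.P_key_induct

set_option autoImplicit false

namespace Pool.Agent.Helper893.Klee

universe u


section
variable {Γ : Type u} [LinearOrder Γ] [WellFoundedLT Γ]







-- helpers for the target
theorem w_lip_psi (y y' : ℝ) : |psi y - psi y'| ≤ |y - y'| * (|y| + |y'|) := by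
  have h1 : psi y - psi y' = (np y - np y') * (np y + np y') := by unfold psi; ring
  have h2 : |np y - np y'| ≤ |y - y'| := by
    unfold np
    have := abs_max_sub_max_le_abs (-y) (-y') 0
    have h3 : |(-y) - (-y')| = |y - y'| := by rw [show (-y) - (-y') = -(y - y') by ring, abs_neg]
    rw [h3] at this
    exact this
  have h3 : |np y + np y'| ≤ |y| + |y'| := by
    have e1 : |np y| ≤ |y| := by
      unfold np
      rw [abs_of_nonneg (le_max_right _ _)]
      exact max_le (neg_le_abs y) (abs_nonneg y)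
    have e2 : |np y'| ≤ |y'| := by
      unfold np
      rw [abs_of_nonneg (le_max_right _ _)]
      exact max_le (neg_le_abs y') (abs_nonneg y')
    exact (abs_add_le _ _).trans (add_le_add e1 e2)
  rw [h1, abs_mul]
  exact mul_le_mul h2 h3 (abs_nonneg _) (abs_nonneg _)

theorem w_lip_pp (y y' : ℝ) : |(pp y) ^ 2 - (pp y') ^ 2| ≤ |y - y'| * (|y| + |y'|) := by
  have h1 : (pp y) ^ 2 - (pp y') ^ 2 = (pp y - pp y') * (pp y + pp y') := by ring
  have h2 : |pp y - pp y'| ≤ |y - y'| := by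
    unfold pp
    exact abs_max_sub_max_le_abs y y' 0
  have h3 : |pp y + pp y'| ≤ |y| + |y'| := by
    have e1 : |pp y| ≤ |y| := by
      unfold pp
      rw [abs_of_nonneg (le_max_right _ _)]
      exact max_le (le_abs_self y) (abs_nonneg y)
    have e2 : |pp y'| ≤ |y'| := by
      unfold pp
      rw [abs_of_nonneg (le_max_right _ _)]
      exact max_le (le_abs_self y') (abs_nonneg y')
    exact (abs_add_le _ _).trans (add_le_add e1 e2)
  rw [h1, abs_mul]
  exact mul_le_mul h2 h3 (abs_nonneg _) (abs_nonneg _)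

theorem w_lip_pp_le (y : ℝ) : (pp y) ^ 2 ≤ y ^ 2 := by
  have h : |pp y| ≤ |y| := by
    unfold pp
    rw [abs_of_nonneg (le_max_right _ _)]
    exact max_le (le_abs_self y) (abs_nonneg y)
  exact sq_le_sq.mpr h

theorem w_lip_psi_le (y : ℝ) : psi y ≤ y ^ 2 := by
  have h : |np y| ≤ |y| := by
    unfold np
    rw [abs_of_nonneg (le_max_right _ _)]
    exact max_le (neg_le_abs y) (abs_nonneg y)
  unfold psi
  exact sq_le_sq.mpr h

theorem w_lip_summable (g : Γ → HS Γ → ℝ) (hg : Adm g) (z : HS Γ) (hz : ‖z‖ ≤ 1) :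
    Summable (fun a => psi (z a) + (pp (z a)) ^ 2 * g a z) := by
  refine Summable.of_nonneg_of_le (f := fun a => 2 * (z a) ^ 2) ?_ ?_ ((hs_summable z).mul_left 2)
  · intro a
    have := g_bounds g hg z hz a
    have h1 : 0 ≤ psi (z a) := sq_nonneg _
    have h2 : 0 ≤ (pp (z a)) ^ 2 * g a z := mul_nonneg (sq_nonneg _) this.1
    exact add_nonneg h1 h2
  · intro a
    have := g_bounds g hg z hz a
    have h1 := w_lip_psi_le (z a)
    have h2 := w_lip_pp_le (z a)
    have h3 : (pp (z a)) ^ 2 * g a z ≤ (pp (z a)) ^ 2 * 1 :=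
      mul_le_mul_of_nonneg_left this.2 (sq_nonneg _)
    show psi (z a) + (pp (z a)) ^ 2 * g a z ≤ 2 * (z a) ^ 2
    linarith

theorem w_lip_amgm (t u v : ℝ) (ht : 0 < t) : |u| * |v| ≤ (u ^ 2 / t + t * v ^ 2) / 2 := by
  have h1 : 0 ≤ (|u| - t * |v|) ^ 2 / t := div_nonneg (sq_nonneg _) ht.le
  have h2 : (|u| - t * |v|) ^ 2 / t = u ^ 2 / t - 2 * (|u| * |v|) + t * v ^ 2 := by
    have hu : |u| ^ 2 = u ^ 2 := sq_abs u
    have hv : |v| ^ 2 = v ^ 2 := sq_abs v
    rw [← hu, ← hv]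
    field_simp
    ring
  linarith

-- TARGET
/-- W2 -/
theorem w_lip (g : Γ → HS Γ → ℝ) (hg : Adm g) (z x : HS Γ) (hz : ‖z‖ ≤ 1) (hx : ‖x‖ ≤ 1) :
    |w g z - w g x| ≤ 6 * ‖z - x‖ := by
  rcases eq_or_ne z x with rfl | hne
  · simp
  have ht : 0 < ‖z - x‖ := norm_pos_iff.mpr (sub_ne_zero.mpr hne)
  set t := ‖z - x‖ with htdef
  have hsz := w_lip_summable g hg z hz
  have hsx := w_lip_summable g hg x hx
  -- difference of the g's
  have hgd : ∀ a, |g a z - g a x| ≤ t := by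
    intro a
    have hk := (key_induct g hg z x hz hx a).1
    have hE0 := E_nonneg g hg z x hz hx
    have hE := E_le g hg z x hz hx
    have b1 := g_bounds g hg z hz a
    have b2 := g_bounds g hg x hx a
    have h1 : (g a z - g a x) ^ 2 ≤ t ^ 2 := by
      have : (g a z + g a x) * E g z x ≤ 2 * E g z x :=
        mul_le_mul_of_nonneg_right (by linarith [b1.2, b2.2]) hE0
      nlinarith [sq_nonneg t]
    exact abs_le_of_sq_le_sq h1 ht.le
  -- termwise bound
  have hterm : ∀ a, |(psi (z a) + (pp (z a)) ^ 2 * g a z) - (psi (x a) + (pp (x a)) ^ 2 * g a x)|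
      ≤ 2 * ((z a - x a) ^ 2 / t + (t * (z a) ^ 2 + t * (x a) ^ 2) / 2) + t * (x a) ^ 2 := by
    intro a
    have b1 := g_bounds g hg z hz a
    have e1 := w_lip_psi (z a) (x a)
    have e2 := w_lip_pp (z a) (x a)
    have e3 := hgd a
    have e4 := w_lip_amgm t (z a - x a) (z a) ht
    have e5 := w_lip_amgm t (z a - x a) (x a) ht
    have hsplit : (psi (z a) + (pp (z a)) ^ 2 * g a z) - (psi (x a) + (pp (x a)) ^ 2 * g a x)
        = (psi (z a) - psi (x a)) + (((pp (z a)) ^ 2 - (pp (x a)) ^ 2) * g a z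
          + (pp (x a)) ^ 2 * (g a z - g a x)) := by ring
    rw [hsplit]
    have f1 : |((pp (z a)) ^ 2 - (pp (x a)) ^ 2) * g a z| ≤ |z a - x a| * (|z a| + |x a|) := by
      rw [abs_mul, abs_of_nonneg b1.1]
      calc |(pp (z a)) ^ 2 - (pp (x a)) ^ 2| * g a z
          ≤ |(pp (z a)) ^ 2 - (pp (x a)) ^ 2| * 1 :=
            mul_le_mul_of_nonneg_left b1.2 (abs_nonneg _)
        _ = |(pp (z a)) ^ 2 - (pp (x a)) ^ 2| := mul_one _
        _ ≤ _ := e2
    have f2 : |(pp (x a)) ^ 2 * (g a z - g a x)| ≤ t * (x a) ^ 2 := by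
      rw [abs_mul, abs_of_nonneg (sq_nonneg (pp (x a)))]
      calc (pp (x a)) ^ 2 * |g a z - g a x| ≤ (x a) ^ 2 * t :=
            mul_le_mul (w_lip_pp_le _) e3 (abs_nonneg _) (sq_nonneg _)
        _ = t * (x a) ^ 2 := mul_comm _ _
    have f3 := abs_add_le (psi (z a) - psi (x a)) (((pp (z a)) ^ 2 - (pp (x a)) ^ 2) * g a z
          + (pp (x a)) ^ 2 * (g a z - g a x))
    have f4 := abs_add_le (((pp (z a)) ^ 2 - (pp (x a)) ^ 2) * g a z)
          ((pp (x a)) ^ 2 * (g a z - g a x))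
    have f5 : |z a - x a| * (|z a| + |x a|) ≤
        (z a - x a) ^ 2 / t + (t * (z a) ^ 2 + t * (x a) ^ 2) / 2 := by
      rw [mul_add]
      linarith
    linarith
  -- summability and sum of the bound
  have hs1 : Summable (fun a => (z a - x a) ^ 2) := by
    have := hs_summable (z - x)
    simpa using this
  have hn1 : ∑' a, (z a - x a) ^ 2 = t ^ 2 := by
    have := hs_norm_sq (z - x)
    rw [htdef, this]
    rfl
  have hs2 := hs_summable z
  have hs3 := hs_summable x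
  have hn2 := hs_norm_sq z
  have hn3 := hs_norm_sq x
  have hb : HasSum (fun a => 2 * ((z a - x a) ^ 2 / t + (t * (z a) ^ 2 + t * (x a) ^ 2) / 2)
      + t * (x a) ^ 2)
      (2 * (t ^ 2 / t + (t * ‖z‖ ^ 2 + t * ‖x‖ ^ 2) / 2) + t * ‖x‖ ^ 2) := by
    have k1 : HasSum (fun a => (z a - x a) ^ 2) (t ^ 2) := by rw [← hn1]; exact hs1.hasSum
    have k2 : HasSum (fun a => (z a) ^ 2) (‖z‖ ^ 2) := by rw [hn2]; exact hs2.hasSum
    have k3 : HasSum (fun a => (x a) ^ 2) (‖x‖ ^ 2) := by rw [hn3]; exact hs3.hasSum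
    exact (((k1.div_const t).add (((k2.mul_left t).add (k3.mul_left t)).div_const 2)).mul_left
      2).add (k3.mul_left t)
  have hw : w g z - w g x = -∑' a, ((psi (z a) + (pp (z a)) ^ 2 * g a z)
      - (psi (x a) + (pp (x a)) ^ 2 * g a x)) := by
    unfold w
    rw [hsz.tsum_sub hsx]
    ring
  rw [hw, abs_neg]
  have hdsum : Summable (fun a => (psi (z a) + (pp (z a)) ^ 2 * g a z)
      - (psi (x a) + (pp (x a)) ^ 2 * g a x)) := hsz.sub hsx
  have h1 : |∑' a, ((psi (z a) + (pp (z a)) ^ 2 * g a z)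
      - (psi (x a) + (pp (x a)) ^ 2 * g a x))| ≤
      2 * (t ^ 2 / t + (t * ‖z‖ ^ 2 + t * ‖x‖ ^ 2) / 2) + t * ‖x‖ ^ 2 := by
    have := tsum_of_norm_bounded hb (f := fun a => (psi (z a) + (pp (z a)) ^ 2 * g a z)
      - (psi (x a) + (pp (x a)) ^ 2 * g a x)) (fun a => by
        rw [Real.norm_eq_abs]; exact hterm a)
    rwa [Real.norm_eq_abs] at this
  refine h1.trans ?_
  have h2 : t ^ 2 / t = t := by field_simp
  rw [h2]
  have h3 : ‖z‖ ^ 2 ≤ 1 := by
    have := norm_nonneg z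
    nlinarith
  have h4 : ‖x‖ ^ 2 ≤ 1 := by
    have := norm_nonneg x
    nlinarith
  have h5 : t * ‖z‖ ^ 2 ≤ t * 1 := mul_le_mul_of_nonneg_left h3 ht.le
  have h6 : t * ‖x‖ ^ 2 ≤ t * 1 := mul_le_mul_of_nonneg_left h4 ht.le
  linarith

end


end Pool.Agent.Helper893.Klee
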