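import Pool.Agent.Helper893.Klee.Base
import Pool.Agent.Helper893.Klee.P_E_nonneg
import Pool.Agent.Helper893.Klee.P_key_J
import Pool.Agent.Helper893.Klee.P_w_bounds
import Pool.Agent.Helper893.Klee.P_w_lip

set_option autoImplicit false

namespace Pool.Agent.Helper893.Klee

universe u


section
variable {Γ : Type u} [LinearOrder Γ] [WellFoundedLT Γ]





-- TARGET
/-- A1 -/
theorem A_mid (g : Γ → HS Γ → ℝ) (hg : Adm g) (z x : HS Γ) (hz : z ∈ A g) (hx : x ∈ A g) :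
    (1 / 2 : ℝ) • (z + x) ∈ A g := by
  obtain ⟨hz1, hz2⟩ := hz
  obtain ⟨hx1, hx2⟩ := hx
  have hn : ‖(1 / 2 : ℝ) • (z + x)‖ ≤ (‖z‖ + ‖x‖) / 2 := by
    rw [norm_smul]
    have h1 : ‖(1 / 2 : ℝ)‖ = 1 / 2 := by
      rw [Real.norm_of_nonneg (by norm_num)]
    rw [h1]
    have h2 := norm_add_le z x
    linarith
  have hz0 := norm_nonneg z
  have hx0 := norm_nonneg x
  have hm0 := norm_nonneg ((1 / 2 : ℝ) • (z + x))
  refine ⟨by linarith, ?_⟩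
  have h3 : ‖(1 / 2 : ℝ) • (z + x)‖ ^ 2 ≤ ((‖z‖ + ‖x‖) / 2) ^ 2 := pow_le_pow_left₀ hm0 hn 2
  have h4 : ((‖z‖ + ‖x‖) / 2) ^ 2 ≤ (‖z‖ ^ 2 + ‖x‖ ^ 2) / 2 := by
    nlinarith [sq_nonneg (‖z‖ - ‖x‖)]
  have h5 := key_J g hg z x hz1 hx1
  have h6 := E_nonneg g hg z x hz1 hx1
  linarith

-- TARGET
/-- A2 -/
theorem A_closed (g : Γ → HS Γ → ℝ) (hg : Adm g) : IsClosed (A g) := by
  rw [← isSeqClosed_iff_isClosed]
  intro u z hu hlim
  have hz : ‖z‖ ≤ 1 := le_of_tendsto' hlim.norm (fun n => (hu n).1)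
  have h0 : Filter.Tendsto (fun n => 6 * ‖u n - z‖) Filter.atTop (nhds 0) := by
    have h1 : Filter.Tendsto (fun n => ‖u n - z‖) Filter.atTop (nhds 0) :=
      tendsto_iff_norm_sub_tendsto_zero.1 hlim
    have h2 := h1.const_mul 6
    rwa [mul_zero] at h2
  have hw : Filter.Tendsto (fun n => w g (u n)) Filter.atTop (nhds (w g z)) := by
    rw [tendsto_iff_norm_sub_tendsto_zero]
    refine squeeze_zero (fun n => norm_nonneg _) (fun n => ?_) h0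
    rw [Real.norm_eq_abs]
    exact w_lip g hg (u n) z (hu n).1 hz
  refine ⟨hz, ?_⟩
  have h3 : Filter.Tendsto (fun n => ‖u n‖ ^ 2 / 2) Filter.atTop (nhds (‖z‖ ^ 2 / 2)) :=
    (hlim.norm.pow 2).div_const 2
  have h4 : Filter.Tendsto (fun n => 1 / 2 + w g (u n)) Filter.atTop (nhds (1 / 2 + w g z)) :=
    hw.const_add _
  exact le_of_tendsto_of_tendsto' h3 h4 (fun n => (hu n).2)

-- TARGET
/-- A3 -/
theorem A_small (g : Γ → HS Γ → ℝ) (hg : Adm g) (z : HS Γ) (hz : ‖z‖ ^ 2 ≤ 1 / 3) :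
    z ∈ A g := by
  have h0 := norm_nonneg z
  have h1 : ‖z‖ ≤ 1 := by nlinarith
  have h2 := (w_bounds g hg z h1).1
  exact ⟨h1, by linarith⟩

end


end Pool.Agent.Helper893.Klee
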