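import Pool.Agent.Helper893.Klee.Base
import Pool.Agent.Helper893.Klee.P_g_bounds
import Pool.Agent.Helper893.Klee.P_g_local
import Pool.Agent.Helper893.Klee.P_hs_summable
import Pool.Agent.Helper893.Klee.P_w_bounds

set_option autoImplicit false

namespace Pool.Agent.Helper893.Klee

universe u


section
variable {Γ : Type u} [LinearOrder Γ] [WellFoundedLT Γ]







-- TARGET
/-- X3: lifting of an active centre. -/
theorem contact_of_active (g : Γ → HS Γ → ℝ) (hg : Adm g) (a : Γ) (p η : HS Γ)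
    (hp : ∀ b, a ≤ b → p b = 0)
    (hη : ‖η‖ ≤ 1) (hηs : ∀ b, a ≤ b → η b = 0) (hlt : ‖η‖ ^ 2 / 2 < 1 / 2 + w g η)
    (hga : ∀ z, g a z = eps * D g a z η) :
    ∃ k ∈ A g, ‖k‖ ^ 2 / 2 = 1 / 2 + w g k ∧
      w g k + inner ℝ p k = w g η + inner ℝ p η := by
  classical
  set χ : ℝ := Real.sqrt (1 + 2 * w g η - ‖η‖ ^ 2) with hχ
  have hpos : 0 < 1 + 2 * w g η - ‖η‖ ^ 2 := by linarith
  have hχpos : 0 < χ := Real.sqrt_pos.mpr hpos
  have hχsq : χ ^ 2 = 1 + 2 * w g η - ‖η‖ ^ 2 := Real.sq_sqrt hpos.le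
  set s : HS Γ := lp.single 2 a χ with hs
  have hsa : s a = χ := by simp [hs]
  have hsne : ∀ b, b ≠ a → s b = 0 := by
    intro b hb
    simp [hs, lp.single_apply, hb]
  have hk : ∀ b, (η + s) b = η b + s b := fun b => rfl
  have hkne : ∀ b, b ≠ a → (η + s) b = η b := by
    intro b hb
    rw [hk, hsne b hb, add_zero]
  have hka : (η + s) a = χ := by
    rw [hk, hsa, hηs a le_rfl, zero_add]
  have hloc : ∀ b, b ≤ a → g b (η + s) = g b η := by
    intro b hb
    exact g_local g hg b _ _ (fun c hc => hkne c (ne_of_lt (lt_of_lt_of_le hc hb)))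
  have hD : D g a (η + s) η = 0 := by
    unfold D
    have : (fun b : Γ => if b < a then (ph g b (η + s) - ph g b η) ^ 2 else 0) = fun _ => 0 := by
      funext b
      split_ifs with hb
      · have : ph g b (η + s) = ph g b η := by
          unfold ph
          rw [hloc b hb.le, hkne b hb.ne]
        rw [this]; simp
      · rfl
    rw [this]
    exact tsum_zero
  have hgk : g a (η + s) = 0 := by rw [hga, hD, mul_zero]
  have hw : w g (η + s) = w g η := by
    apply w_congr
    intro b
    rcases lt_trichotomy b a with hb | hb | hb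
    · rw [hkne b hb.ne, hloc b hb.le]
    · subst hb
      rw [hgk, hka, hηs b le_rfl]
      have h1 : psi χ = 0 := by
        unfold psi np
        rw [max_eq_right (by linarith)]
        simp
      have h2 : psi 0 = 0 := by unfold psi np; simp
      have h3 : pp 0 = 0 := by unfold pp; simp
      rw [h1, h2, h3]
      ring
    · rw [hkne b hb.ne', hηs b hb.le]
      have h3 : pp 0 = 0 := by unfold pp; simp
      rw [h3]
      ring
  have hinner : ∀ q : HS Γ, q a = 0 → inner ℝ q s = (0 : ℝ) := by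
    intro q hq
    rw [hs, lp.inner_single_right, hq]
    simp
  have hns : ‖s‖ ^ 2 = χ ^ 2 := by
    rw [hs, lp.norm_single (by norm_num : (0 : ENNReal) < 2)]
    simp
  have hnorm : ‖η + s‖ ^ 2 = 1 + 2 * w g η := by
    rw [norm_add_sq_real, hinner η (hηs a le_rfl), hns, hχsq]
    ring
  have hw0 := (w_bounds g hg η hη).2
  refine ⟨η + s, ⟨?_, ?_⟩, ?_, ?_⟩
  · have : ‖η + s‖ ^ 2 ≤ 1 ^ 2 := by rw [hnorm]; linarith
    exact (sq_le_sq₀ (norm_nonneg _) zero_le_one).mp this
  · rw [hnorm, hw]; linarith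
  · rw [hnorm, hw]; ring
  · rw [hw, inner_add_right, hinner p (hp a le_rfl), add_zero]

end


end Pool.Agent.Helper893.Klee
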