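import Pool.Agent.Helper893.Klee.Base
import Pool.Agent.Helper893.Klee.P_g_bounds
import Pool.Agent.Helper893.Klee.P_g_local
import Pool.Agent.Helper893.Klee.P_hs_summable
import Pool.Agent.Helper893.Klee.P_key_lip

set_option autoImplicit false

namespace Pool.Agent.Helper893.Klee

universe u


section
variable {Γ : Type u} [LinearOrder Γ] [WellFoundedLT Γ]






theorem flat_diff_psi_bd (y : ℝ) : 0 ≤ psi y ∧ psi y ≤ y ^ 2 := by
  refine ⟨sq_nonneg _, ?_⟩
  unfold psi np
  rcases le_total (-y) 0 with h | h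
  · rw [max_eq_right h]
    nlinarith [sq_nonneg y]
  · rw [max_eq_left h]
    nlinarith

theorem flat_diff_pp_bd (y : ℝ) : 0 ≤ (pp y) ^ 2 ∧ (pp y) ^ 2 ≤ y ^ 2 := by
  refine ⟨sq_nonneg _, ?_⟩
  unfold pp
  rcases le_total y 0 with h | h
  · rw [max_eq_right h]
    nlinarith [sq_nonneg y]
  · rw [max_eq_left h]

theorem flat_diff_D_nonneg (g : Γ → HS Γ → ℝ) (c : Γ) (z x : HS Γ) : 0 ≤ D g c z x := by
  unfold D
  refine tsum_nonneg fun b => ?_
  split_ifs
  · exact sq_nonneg _
  · exact le_rfl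

theorem flat_diff_sq (z : HS Γ) (hz : ‖z‖ ≤ 1) : ∑' a, (z a) ^ 2 ≤ 1 := by
  rw [← hs_norm_sq]
  have := norm_nonneg z
  nlinarith

theorem flat_diff_w_summable (g : Γ → HS Γ → ℝ) (hg : Adm g) (z : HS Γ) (hz : ‖z‖ ≤ 1) :
    Summable fun a => psi (z a) + (pp (z a)) ^ 2 * g a z := by
  refine Summable.of_norm_bounded (g := fun a => 2 * (z a) ^ 2) ((hs_summable z).mul_left 2) ?_
  intro a
  obtain ⟨h1, h2⟩ := flat_diff_psi_bd (z a)
  obtain ⟨h3, h4⟩ := flat_diff_pp_bd (z a)
  obtain ⟨h5, h6⟩ := g_bounds g hg z hz a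
  rw [Real.norm_of_nonneg (add_nonneg h1 (mul_nonneg h3 h5))]
  have h7 : (pp (z a)) ^ 2 * g a z ≤ (z a) ^ 2 := by nlinarith
  linarith

/-- the bound of the differences of `g` from the bound of `D` -/
theorem flat_diff_g_sq (g : Γ → HS Γ → ℝ) (hg : Adm g) (z x : HS Γ) (hz : ‖z‖ ≤ 1)
    (hx : ‖x‖ ≤ 1) (c : Γ) (δ : ℝ) (hD : D g c z x ≤ 2 * δ ^ 2) :
    (g c z - g c x) ^ 2 ≤ 8 * eps * δ ^ 2 := by
  have h := key_lip g hg z x hz hx c
  obtain ⟨h1, h2⟩ := g_bounds g hg z hz c
  obtain ⟨h3, h4⟩ := g_bounds g hg x hx c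
  have h0 := flat_diff_D_nonneg g c z x
  have he : 0 < eps := by unfold eps; norm_num
  refine h.trans ?_
  calc 2 * eps * D g c z x * (g c z + g c x) ≤ 2 * eps * D g c z x * 2 :=
        mul_le_mul_of_nonneg_left (by linarith) (by positivity)
    _ ≤ 2 * eps * (2 * δ ^ 2) * 2 := by
        apply mul_le_mul_of_nonneg_right _ (by norm_num)
        exact mul_le_mul_of_nonneg_left hD (by positivity)
    _ = 8 * eps * δ ^ 2 := by ring

-- TARGET
/-- F: vectors which differ only in one coordinate, at which `g` vanishes. -/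
theorem flat_diff (g : Γ → HS Γ → ℝ) (hg : Adm g) (z x : HS Γ) (hz : ‖z‖ ≤ 1) (hx : ‖x‖ ≤ 1)
    (b : Γ) (hdiff : ∀ a, a ≠ b → z a = x a) (hb : g b z = 0) :
    |w g z - w g x| ≤ 2 * |psi (z b) - psi (x b)| := by
  set δ := |psi (z b) - psi (x b)| with hδ
  have hδ0 : 0 ≤ δ := abs_nonneg _
  have he : eps = 1 / 4000 := rfl
  have hbx : g b x = 0 := by
    rw [← hb]
    exact (g_local g hg b z x fun c hc => hdiff c hc.ne).symm
  have hDall : ∀ c, D g c z x ≤ 2 * δ ^ 2 := by
    intro c
    induction c using WellFoundedLT.induction with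
    | ind c ih =>
      have hs : HasSum (fun d => (if d = b then δ ^ 2 else 0) + 8 * eps * δ ^ 2 * (z d) ^ 2)
          (δ ^ 2 + 8 * eps * δ ^ 2 * ∑' a, (z a) ^ 2) :=
        (hasSum_ite_eq b (δ ^ 2)).add ((hs_summable z).hasSum.mul_left _)
      have hb1 : ‖D g c z x‖ ≤ δ ^ 2 + 8 * eps * δ ^ 2 * ∑' a, (z a) ^ 2 := by
        unfold D
        refine tsum_of_norm_bounded hs ?_
        intro d
        have hnn : 0 ≤ 8 * eps * δ ^ 2 * (z d) ^ 2 := by
          rw [he]
          positivity
        by_cases hdc : d < c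
        · rw [if_pos hdc, Real.norm_of_nonneg (sq_nonneg _)]
          by_cases hdb : d = b
          · subst hdb
            rw [if_pos rfl]
            have e : (ph g d z - ph g d x) ^ 2 = δ ^ 2 := by
              unfold ph
              rw [hb, hbx, hδ, sq_abs]
              ring
            rw [e]
            linarith
          · rw [if_neg hdb, zero_add]
            have e : (ph g d z - ph g d x) ^ 2 = (g d z - g d x) ^ 2 * (z d) ^ 2 := by
              unfold ph
              rw [← hdiff d hdb]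
              ring
            rw [e]
            exact mul_le_mul_of_nonneg_right
              (flat_diff_g_sq g hg z x hz hx d δ (ih d hdc)) (sq_nonneg _)
        · rw [if_neg hdc, norm_zero]
          have : (0 : ℝ) ≤ if d = b then δ ^ 2 else 0 := by
            split_ifs
            · exact sq_nonneg _
            · exact le_rfl
          linarith
      have hb2 := (le_abs_self _).trans hb1
      refine hb2.trans ?_
      have h1 := flat_diff_sq z hz
      have h2 : 8 * eps * δ ^ 2 * ∑' a, (z a) ^ 2 ≤ 8 * eps * δ ^ 2 * 1 :=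
        mul_le_mul_of_nonneg_left h1 (by rw [he]; positivity)
      refine (add_le_add_right h2 _).trans ?_
      rw [he]
      nlinarith [sq_nonneg δ]
  have hgall : ∀ c, |g c z - g c x| ≤ δ := by
    intro c
    have h := flat_diff_g_sq g hg z x hz hx c δ (hDall c)
    apply abs_le_of_sq_le_sq _ hδ0
    refine h.trans ?_
    rw [he]
    nlinarith [sq_nonneg δ]
  have hw : w g z - w g x = -∑' a, ((psi (z a) + (pp (z a)) ^ 2 * g a z) -
      (psi (x a) + (pp (x a)) ^ 2 * g a x)) := by
    rw [(flat_diff_w_summable g hg z hz).tsum_sub (flat_diff_w_summable g hg x hx)]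
    unfold w
    ring
  rw [hw, abs_neg]
  have hs : HasSum (fun d => (if d = b then δ else 0) + δ * (z d) ^ 2)
      (δ + δ * ∑' a, (z a) ^ 2) :=
    (hasSum_ite_eq b δ).add ((hs_summable z).hasSum.mul_left _)
  have hb1 := tsum_of_norm_bounded hs (f := fun a => ((psi (z a) + (pp (z a)) ^ 2 * g a z) -
      (psi (x a) + (pp (x a)) ^ 2 * g a x))) (by
    intro a
    by_cases hab : a = b
    · subst hab
      rw [if_pos rfl, hb, hbx, mul_zero, mul_zero, add_zero, add_zero, Real.norm_eq_abs, ← hδ]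
      have : 0 ≤ δ * (z a) ^ 2 := by positivity
      linarith
    · rw [if_neg hab, zero_add, ← hdiff a hab]
      have e : psi (z a) + (pp (z a)) ^ 2 * g a z - (psi (z a) + (pp (z a)) ^ 2 * g a x) =
          (pp (z a)) ^ 2 * (g a z - g a x) := by ring
      rw [e, norm_mul, Real.norm_of_nonneg (flat_diff_pp_bd (z a)).1, Real.norm_eq_abs, mul_comm δ]
      exact mul_le_mul (flat_diff_pp_bd (z a)).2 (hgall a) (abs_nonneg _) (sq_nonneg _))
  refine hb1.trans ?_
  have h1 := flat_diff_sq z hz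
  nlinarith

end


end Pool.Agent.Helper893.Klee
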