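import Pool.Agent.Helper893.Klee.Base
import Pool.Agent.Helper893.Klee.P_flat_diff
import Pool.Agent.Helper893.Klee.P_g_bounds
import Pool.Agent.Helper893.Klee.P_hs_summable
import Pool.Agent.Helper893.Klee.P_w_bounds

set_option autoImplicit false

namespace Pool.Agent.Helper893.Klee

universe u


section
variable {Γ : Type u} [LinearOrder Γ] [WellFoundedLT Γ]






-- TARGET
/-- X2: a non-contact maximiser on a flat can be moved to a contact. -/
theorem contact_of_flat (g : Γ → HS Γ → ℝ) (hg : Adm g) (a : Γ) (p η : HS Γ)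
    (hη : ‖η‖ ≤ 1) (hηs : ∀ b, a ≤ b → η b = 0) (hlt : ‖η‖ ^ 2 / 2 < 1 / 2 + w g η)
    (hmax : ∀ ζ ∈ A g, (∀ b, a ≤ b → ζ b = 0) → w g ζ + inner ℝ p ζ ≤ w g η + inner ℝ p η)
    (b : Γ) (hb : b < a) (hgb : g b η = 0) (hηb : 0 ≤ η b) :
    ∃ k ∈ A g, (∀ b, a ≤ b → k b = 0) ∧ ‖k‖ ^ 2 / 2 = 1 / 2 + w g k ∧
      w g k + inner ℝ p k = w g η + inner ℝ p η := by
  classical
  set e : HS Γ := lp.single 2 b (1 : ℝ) with he
  have hnat : ∀ (t : ℝ) (c : Γ), (η + t • e) c = η c + t * e c := by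
    intro t c
    simp [lp.coeFn_add, lp.coeFn_smul]
  have heb : e b = 1 := lp.single_apply_self _ _ _
  have hec : ∀ c, c ≠ b → e c = 0 := fun c hc => lp.single_apply_ne _ _ _ hc
  have hζb : ∀ t : ℝ, (η + t • e) b = η b + t := by
    intro t; rw [hnat, heb, mul_one]
  have hζc : ∀ (t : ℝ) c, c ≠ b → (η + t • e) c = η c := by
    intro t c hc; rw [hnat, hec c hc, mul_zero, add_zero]
  have hins : ∀ z : HS Γ, inner ℝ z e = z b := by
    intro z
    rw [he, lp.inner_single_right]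
    simp
  have hne : ‖e‖ = 1 := by
    rw [he, lp.norm_single (by norm_num)]
    simp
  have hnorm : ∀ t : ℝ, ‖η + t • e‖ ^ 2 = ‖η‖ ^ 2 + 2 * t * η b + t ^ 2 := by
    intro t
    rw [norm_add_sq_real, inner_smul_right, hins, norm_smul, hne, mul_one, Real.norm_eq_abs, sq_abs]
    ring
  have hinp : ∀ t : ℝ, inner ℝ p (η + t • e) = inner ℝ p η + t * p b := by
    intro t
    rw [inner_add_right, inner_smul_right, hins]
  have hsup : ∀ t : ℝ, ∀ c, a ≤ c → (η + t • e) c = 0 := by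
    intro t c hc
    rw [hζc t c (fun h => absurd (h ▸ hc) (not_le.2 hb)), hηs c hc]
  have hpsi0 : ∀ y : ℝ, 0 ≤ y → psi y = 0 := by
    intro y hy
    simp only [psi, np]
    rw [max_eq_right (by linarith)]
    norm_num
  have hw0 : w g η ≤ 0 := (w_bounds g hg η hη).2
  have hηb1 : |η b| ≤ 1 := by
    have h := lp.norm_apply_le_norm (p := 2) (by norm_num) η b
    rw [Real.norm_eq_abs] at h
    linarith
  have hηb2 : η b ≤ 1 := (le_abs_self _).trans hηb1
  have hwpos : ∀ t : ℝ, 0 ≤ t → ‖η + t • e‖ ≤ 1 → w g (η + t • e) = w g η := by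
    intro t ht h1
    have h := flat_diff g hg η (η + t • e) hη h1 b (fun c hc => (hζc t c hc).symm) hgb
    rw [hζb, hpsi0 _ hηb, hpsi0 _ (by linarith)] at h
    simp only [sub_self, abs_zero, mul_zero] at h
    have h2 := abs_nonpos_iff.1 h
    linarith
  have hwneg : ∀ t : ℝ, t ≤ 0 → ‖η + t • e‖ ≤ 1 → w g η - 2 * t ^ 2 ≤ w g (η + t • e) := by
    intro t ht h1
    have h := flat_diff g hg η (η + t • e) hη h1 b (fun c hc => (hζc t c hc).symm) hgb
    rw [hζb, hpsi0 _ hηb] at h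
    have h3 : psi (η b + t) ≤ t ^ 2 ∧ 0 ≤ psi (η b + t) := by
      simp only [psi, np]
      refine ⟨?_, by positivity⟩
      have h4 : max (-(η b + t)) 0 ≤ -t := max_le (by linarith) (by linarith)
      have h5 : 0 ≤ max (-(η b + t)) 0 := le_max_right _ _
      nlinarith
    rw [zero_sub, abs_neg, abs_of_nonneg h3.2] at h
    have h6 := (abs_le.1 h).2
    linarith [h3.1]
  set δ : ℝ := 1 / 2 + w g η - ‖η‖ ^ 2 / 2 with hδ
  have hδ0 : 0 < δ := by linarith
  have hδ1 : δ ≤ 1 / 2 := by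
    have : 0 ≤ ‖η‖ ^ 2 := sq_nonneg _
    linarith
  have hsmall : ∀ t : ℝ, |t| ≤ δ / 4 → ‖η + t • e‖ ≤ 1 ∧
      ‖η + t • e‖ ^ 2 / 2 ≤ 1 / 2 + (w g η - 2 * t ^ 2) := by
    intro t ht
    have h1 : ‖η + t • e‖ ^ 2 ≤ ‖η‖ ^ 2 + 3 * |t| := by
      rw [hnorm]
      have h2 : t * η b ≤ |t| := by
        calc t * η b ≤ |t * η b| := le_abs_self _
          _ = |t| * |η b| := abs_mul _ _
          _ ≤ |t| * 1 := mul_le_mul_of_nonneg_left hηb1 (abs_nonneg _)
          _ = |t| := mul_one _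
      have h3 : t ^ 2 ≤ |t| := by
        rw [← sq_abs]
        have := abs_nonneg t
        nlinarith
      linarith
    have h4 : t ^ 2 ≤ |t| / 4 := by
      rw [← sq_abs]
      have := abs_nonneg t
      nlinarith
    refine ⟨?_, by linarith⟩
    have h5 : ‖η + t • e‖ ^ 2 ≤ 1 := by linarith
    have h6 := norm_nonneg (η + t • e)
    nlinarith
  have hpb : p b = 0 := by
    rcases lt_trichotomy (p b) 0 with h | h | h
    · exfalso
      set t : ℝ := -min (δ / 4) (-(p b) / 4) with ht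
      have h1 : 0 < min (δ / 4) (-(p b) / 4) := lt_min (by linarith) (by linarith)
      have h2 : |t| ≤ δ / 4 := by
        rw [ht, abs_neg, abs_of_pos h1]
        exact min_le_left _ _
      have h3 : -t ≤ -(p b) / 4 := by
        rw [ht, neg_neg]
        exact min_le_right _ _
      have ht0 : t < 0 := by rw [ht]; linarith
      obtain ⟨h4, h5⟩ := hsmall t h2
      have h6 := hwneg t ht0.le h4
      have h7 := hmax (η + t • e) ⟨h4, by linarith⟩ (hsup t)
      rw [hinp] at h7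
      nlinarith
    · exact h
    · exfalso
      set t : ℝ := δ / 4 with ht
      have ht0 : 0 < t := by linarith
      obtain ⟨h4, h5⟩ := hsmall t (by rw [abs_of_pos ht0])
      have h6 := hwpos t ht0.le h4
      have h7 := hmax (η + t • e) ⟨h4, by rw [h6]; nlinarith [sq_nonneg t]⟩ (hsup t)
      rw [hinp, h6] at h7
      have : 0 < t * p b := mul_pos ht0 h
      linarith
  set t1 : ℝ := -η b + Real.sqrt (η b ^ 2 + 2 * δ) with ht1
  have hsq : Real.sqrt (η b ^ 2 + 2 * δ) ^ 2 = η b ^ 2 + 2 * δ := Real.sq_sqrt (by positivity)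
  have ht10 : 0 ≤ t1 := by
    have : η b ≤ Real.sqrt (η b ^ 2 + 2 * δ) := Real.le_sqrt_of_sq_le (by linarith)
    linarith
  have hn1 : ‖η + t1 • e‖ ^ 2 = 1 + 2 * w g η := by
    rw [hnorm]
    have h1 : t1 + η b = Real.sqrt (η b ^ 2 + 2 * δ) := by rw [ht1]; ring
    have h2 : (t1 + η b) ^ 2 = η b ^ 2 + 2 * δ := by rw [h1, hsq]
    have h3 : 2 * δ = 1 + 2 * w g η - ‖η‖ ^ 2 := by rw [hδ]; ring
    linarith [h2, h3, show (t1 + η b) ^ 2 = t1 ^ 2 + 2 * t1 * η b + η b ^ 2 by ring]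
  have hn2 : ‖η + t1 • e‖ ≤ 1 := by
    have h6 := norm_nonneg (η + t1 • e)
    nlinarith
  have hw1 := hwpos t1 ht10 hn2
  refine ⟨η + t1 • e, ⟨hn2, ?_⟩, hsup t1, ?_, ?_⟩
  · rw [hw1]; linarith
  · rw [hw1]; linarith
  · rw [hw1, hinp, hpb]; ring

end


end Pool.Agent.Helper893.Klee
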