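import Pool.Agent.Helper893.Klee.Base

set_option autoImplicit false

namespace Pool.Agent.Helper893.Klee

universe u


-- TARGET
/-- G1: closed midpoint-convex sets are convex. -/
theorem convex_of_mid {X : Type u} [NormedAddCommGroup X] [NormedSpace ℝ X] (S : Set X)
    (hS : IsClosed S) (hmid : ∀ x ∈ S, ∀ y ∈ S, (1 / 2 : ℝ) • (x + y) ∈ S) : Convex ℝ S := by
  intro x hx y hy a b ha hb hab
  have key : ∀ n : ℕ, ∀ k : ℕ, k ≤ 2 ^ n →
      (1 - (k : ℝ) / 2 ^ n) • x + ((k : ℝ) / 2 ^ n) • y ∈ S := by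
    intro n
    induction n with
    | zero =>
      intro k hk
      have hk' : k = 0 ∨ k = 1 := by
        have : k ≤ 1 := by simpa using hk
        omega
      rcases hk' with rfl | rfl
      · simpa using hx
      · simpa using hy
    | succ n ih =>
      intro k hk
      have hk' : k ≤ 2 * 2 ^ n := by rw [pow_succ] at hk; omega
      have h1 := ih (k / 2) (by omega)
      have h2 := ih (k - k / 2) (by omega)
      have h3 := hmid _ h1 _ h2
      convert h3 using 1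
      have hsum : (k : ℝ) = ((k / 2 : ℕ) : ℝ) + ((k - k / 2 : ℕ) : ℝ) := by
        rw [← Nat.cast_add]
        congr 1
        omega
      rw [pow_succ, hsum]
      generalize ((k / 2 : ℕ) : ℝ) = u
      generalize ((k - k / 2 : ℕ) : ℝ) = v
      have h2n : (2 : ℝ) ^ n ≠ 0 := by positivity
      rw [smul_add, smul_add, smul_add, smul_smul, smul_smul, smul_smul, smul_smul]
      have e1 : (1 - (u + v) / (2 ^ n * 2)) = 1 / 2 * (1 - u / 2 ^ n) + 1 / 2 * (1 - v / 2 ^ n) := by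
        field_simp
        ring
      have e2 : ((u + v) / (2 ^ n * 2)) = 1 / 2 * (u / 2 ^ n) + 1 / 2 * (v / 2 ^ n) := by
        field_simp
      rw [e1, e2, add_smul, add_smul]
      abel
  have hb1 : b ≤ 1 := by linarith
  have hlim : Filter.Tendsto (fun n : ℕ => ((⌊b * (2 : ℝ) ^ n⌋₊ : ℕ) : ℝ) / 2 ^ n) Filter.atTop
      (nhds b) :=
    (tendsto_nat_floor_mul_div_atTop hb).comp (tendsto_pow_atTop_atTop_of_one_lt (by norm_num))
  have hlim2 : Filter.Tendsto (fun n : ℕ => (1 - ((⌊b * (2 : ℝ) ^ n⌋₊ : ℕ) : ℝ) / 2 ^ n) • x +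
      (((⌊b * (2 : ℝ) ^ n⌋₊ : ℕ) : ℝ) / 2 ^ n) • y) Filter.atTop (nhds ((1 - b) • x + b • y)) :=
    ((tendsto_const_nhds.sub hlim).smul tendsto_const_nhds).add (hlim.smul tendsto_const_nhds)
  have hab' : a = 1 - b := by linarith
  rw [hab']
  apply hS.mem_of_tendsto hlim2
  refine Filter.Eventually.of_forall fun n => key n _ ?_
  have h2n : (0 : ℝ) < (2 : ℝ) ^ n := by positivity
  have : b * (2 : ℝ) ^ n ≤ ((2 ^ n : ℕ) : ℝ) := by
    push_cast
    nlinarith
  calc ⌊b * (2 : ℝ) ^ n⌋₊ ≤ ⌊((2 ^ n : ℕ) : ℝ)⌋₊ := Nat.floor_mono this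
    _ = 2 ^ n := Nat.floor_natCast _


end Pool.Agent.Helper893.Klee
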