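import Pool.Agent.Helper893.Klee.Base

set_option autoImplicit false

namespace Pool.Agent.Helper893.Klee

universe u


theorem exists_enum_countable_support {Γ : Type u} (z : HS Γ) :
    (Function.support (fun i => z i)).Countable := by
  have h := lp.memℓp z
  rw [memℓp_gen_iff (by norm_num)] at h
  have h1 := h.countable_support
  refine h1.mono fun i hi => ?_
  simp only [Function.mem_support] at hi ⊢
  simpa using hi

theorem exists_enum_card {Γ : Type u} (hΓ : Cardinal.mk Γ = Cardinal.continuum.{u}) :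
    Cardinal.mk (HS Γ) ≤ Cardinal.continuum.{u} := by
  have hne : Nonempty Γ := by
    rw [← Cardinal.mk_ne_zero_iff, hΓ]; exact Cardinal.continuum_ne_zero
  obtain ⟨γ0⟩ := hne
  have h1 : ∀ z : HS Γ, ∃ f : ℕ → Γ, insert γ0 (Function.support (fun i => z i)) = Set.range f :=
    fun z => ((exists_enum_countable_support z).insert γ0).exists_eq_range ⟨γ0, by simp⟩
  choose f hf using h1
  have hinj : Function.Injective (fun z : HS Γ => fun n : ℕ => (f z n, z (f z n))) := by
    intro z z' h
    have h2 : ∀ n, f z n = f z' n ∧ z (f z n) = z' (f z' n) := fun n => by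
      have := congrFun h n
      simpa [Prod.ext_iff] using this
    have h3 : f z = f z' := funext fun n => (h2 n).1
    ext i
    by_cases hi : i ∈ Set.range (f z)
    · obtain ⟨n, rfl⟩ := hi
      rw [(h2 n).2, ← h3]
    · have e1 : z i = 0 := by
        by_contra hc
        exact hi (by rw [← hf z]; exact Set.mem_insert_of_mem _ hc)
      have e2 : z' i = 0 := by
        by_contra hc
        exact hi (by rw [h3, ← hf z']; exact Set.mem_insert_of_mem _ hc)
      rw [e1, e2]
  refine (Cardinal.mk_le_of_injective hinj).trans ?_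
  rw [Cardinal.mk_arrow, Cardinal.mk_prod, hΓ, Cardinal.mk_real]
  simp

theorem exists_enum_aux {Γ : Type u} [LinearOrder Γ] (hΓ : Cardinal.mk Γ = Cardinal.continuum.{u})
    (hcof : Cardinal.aleph0 < Order.cof Γ)
    (hIio : ∀ b : Γ, Cardinal.mk (Set.Iio b) < Cardinal.continuum.{u}) :
    ∃ zen : Γ → HS Γ, ∀ p : HS Γ, ∃ a : Γ, zen a = p ∧ ∀ b, a ≤ b → p b = 0 := by
  have hne : Nonempty Γ := by
    rw [← Cardinal.mk_ne_zero_iff, hΓ]; exact Cardinal.continuum_ne_zero
  have h1 : Cardinal.mk (HS Γ × Γ) ≤ Cardinal.mk Γ := by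
    rw [Cardinal.mk_prod, Cardinal.lift_id, Cardinal.lift_id, hΓ]
    calc _ ≤ Cardinal.continuum.{u} * Cardinal.continuum.{u} :=
          mul_le_mul' (exists_enum_card hΓ) le_rfl
      _ = _ := Cardinal.continuum_mul_self
  obtain ⟨i⟩ := Cardinal.le_def _ _ |>.1 h1
  refine ⟨fun a => (Function.invFun i a).1, fun p => ?_⟩
  -- the support is bounded
  have h2 : ¬ IsCofinal (Function.support (fun i => p i)) := by
    intro hc
    have h3 := Order.cof_le hc
    have h4 : Cardinal.mk (Function.support (fun i => p i)) ≤ Cardinal.aleph0 :=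
      Cardinal.mk_le_aleph0_iff.2 (exists_enum_countable_support p).to_subtype
    exact absurd (lt_of_lt_of_le hcof (h3.trans h4)) (lt_irrefl _)
  have h5 : ∃ b : Γ, ∀ x, p x ≠ 0 → x < b := by
    unfold IsCofinal at h2
    push Not at h2
    obtain ⟨b, hb⟩ := h2
    exact ⟨b, fun x hx => hb x hx⟩
  obtain ⟨b, hb⟩ := h5
  have h6 : ∃ γ : Γ, b ≤ i (p, γ) := by
    by_contra hc
    push Not at hc
    have h7 : Cardinal.mk Γ ≤ Cardinal.mk (Set.Iio b) := by
      refine Cardinal.mk_le_of_injective (f := fun γ => (⟨i (p, γ), hc γ⟩ : Set.Iio b)) ?_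
      intro γ γ' h
      have := i.injective (Subtype.ext_iff.1 h)
      exact (Prod.ext_iff.1 this).2
    rw [hΓ] at h7
    exact absurd (lt_of_le_of_lt h7 (hIio b)) (lt_irrefl _)
  obtain ⟨γ, hγ⟩ := h6
  refine ⟨i (p, γ), ?_, fun c hc => ?_⟩
  · show (Function.invFun i (i (p, γ))).1 = p
    rw [Function.leftInverse_invFun i.injective]
  · by_contra hne
    exact absurd (lt_of_lt_of_le (hb c hne) (hγ.trans hc)) (lt_irrefl _)

-- TARGET
/-- G3: bookkeeping. -/
theorem exists_enum : ∃ (Γ : Type u) (_ : LinearOrder Γ) (_ : WellFoundedLT Γ)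
    (zen : Γ → HS Γ), ∀ p : HS Γ, ∃ a : Γ, zen a = p ∧ ∀ b, a ≤ b → p b = 0 := by
  have hΓ : Cardinal.mk (Cardinal.continuum.{u}.ord.ToType) = Cardinal.continuum.{u} :=
    Cardinal.mk_ord_toType _
  have hcof : Cardinal.aleph0 < Order.cof (Cardinal.continuum.{u}.ord.ToType) := by
    rw [Ordinal.cof_toType, ← Cardinal.two_power_aleph0]
    exact Cardinal.lt_cof_ord_power le_rfl (by norm_num)
  have hIio : ∀ b : Cardinal.continuum.{u}.ord.ToType,
      Cardinal.mk (Set.Iio b) < Cardinal.continuum.{u} := by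
    intro b
    have := Cardinal.mk_Iio_lt b (by simp)
    rwa [hΓ] at this
  exact ⟨_, inferInstance, inferInstance, exists_enum_aux hΓ hcof hIio⟩


end Pool.Agent.Helper893.Klee
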