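import Pool.Agent.Helper893.Klee.Base
import Pool.Agent.Helper893.Klee.P_g_bounds

set_option autoImplicit false

namespace Pool.Agent.Helper893.Klee

universe u


section
variable {Γ : Type u} [LinearOrder Γ] [WellFoundedLT Γ]



theorem exists_good_D_trunc (g : Γ → HS Γ → ℝ) (a : Γ) (z x : HS Γ) :
    D (trunc a g) a z x = D g a z x := by
  unfold D
  congr 1
  funext b
  by_cases hb : b < a
  · simp only [hb, if_true, ph, trunc]
  · simp only [hb, if_false]

theorem exists_good_w_trunc (g : Γ → HS Γ → ℝ) (a : Γ) (ζ : HS Γ) (hζ : ∀ b, a ≤ b → ζ b = 0) :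
    w (trunc a g) ζ = w g ζ := by
  unfold w
  congr 2
  funext b
  by_cases hb : b < a
  · simp only [trunc, hb, if_true]
  · rw [hζ b (not_lt.mp hb)]
    simp [pp]

theorem exists_good_A_trunc (g : Γ → HS Γ → ℝ) (a : Γ) (ζ : HS Γ) (hζ : ∀ b, a ≤ b → ζ b = 0) :
    ζ ∈ A (trunc a g) ↔ ζ ∈ A g := by
  unfold A
  simp only [Set.mem_ofPred_eq, exists_good_w_trunc g a ζ hζ]

theorem exists_good_Rule_trunc (zen : Γ → HS Γ) (g : Γ → HS Γ → ℝ) (a : Γ) (η : HS Γ) :
    Rule zen (trunc a g) a η ↔ Rule zen g a η := by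
  unfold Rule
  constructor
  · rintro ⟨h1, h2, h3, h4, h5⟩
    rw [exists_good_w_trunc g a η h2] at h3 h4
    refine ⟨h1, h2, h3, ?_, ?_⟩
    · intro ζ hζ hb
      have := h4 ζ ((exists_good_A_trunc g a ζ hb).mpr hζ) hb
      rwa [exists_good_w_trunc g a ζ hb] at this
    · intro b hb
      have := h5 b hb
      simpa only [trunc, hb, if_true] using this
  · rintro ⟨h1, h2, h3, h4, h5⟩
    rw [exists_good_w_trunc g a η h2]
    refine ⟨h1, h2, h3, ?_, ?_⟩
    · intro ζ hζ hb
      have := h4 ζ ((exists_good_A_trunc g a ζ hb).mp hζ) hb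
      rwa [exists_good_w_trunc g a ζ hb]
    · intro b hb
      have := h5 b hb
      simpa only [trunc, hb, if_true] using this

/-- extension by zero of a partial family -/
noncomputable def exists_good_ext (a : Γ) (G : (b : Γ) → b < a → HS Γ → ℝ) : Γ → HS Γ → ℝ :=
  fun b => if h : b < a then G b h else fun _ => 0

open Classical in
/-- the recursion step -/
noncomputable def exists_good_F (zen : Γ → HS Γ) (a : Γ) (G : (b : Γ) → b < a → HS Γ → ℝ) : HS Γ → ℝ :=
  if h : ∃ η, Rule zen (exists_good_ext a G) a η then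
    fun z => eps * D (exists_good_ext a G) a z (Classical.choose h) else fun _ => 1

/-- the recursive family -/
noncomputable def exists_good_g (zen : Γ → HS Γ) : Γ → HS Γ → ℝ :=
  IsWellFounded.fix (α := Γ) (· < ·) (fun a G => exists_good_F zen a G)

theorem exists_good_g_eq (zen : Γ → HS Γ) (a : Γ) :
    exists_good_g zen a = exists_good_F zen a (fun b _ => exists_good_g zen b) := by
  unfold exists_good_g
  rw [IsWellFounded.fix_eq]

theorem exists_good_ext_eq (a : Γ) (g : Γ → HS Γ → ℝ) :
    exists_good_ext a (fun b _ => g b) = trunc a g := by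
  funext b
  by_cases hb : b < a
  · simp only [exists_good_ext, trunc, hb, dif_pos, if_true]
  · simp only [exists_good_ext, trunc, hb, if_false]
    rfl

-- TARGET
/-- B3 -/
theorem exists_good (zen : Γ → HS Γ) : ∃ g : Γ → HS Γ → ℝ, Adm g ∧
    ∀ a, (∃ η, Rule zen g a η ∧ ∀ z, g a z = eps * D g a z η) ∨
      ((∀ η, ¬ Rule zen g a η) ∧ ∀ z, g a z = 1) := by
  have key : ∀ a, (∃ η, Rule zen (exists_good_g zen) a η ∧
      ∀ z, exists_good_g zen a z = eps * D (exists_good_g zen) a z η) ∨
      ((∀ η, ¬ Rule zen (exists_good_g zen) a η) ∧ ∀ z, exists_good_g zen a z = 1) := by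
    intro a
    have hg := exists_good_g_eq zen a
    unfold exists_good_F at hg
    rw [exists_good_ext_eq a (exists_good_g zen)] at hg
    by_cases h : ∃ η, Rule zen (trunc a (exists_good_g zen)) a η
    · left
      rw [dif_pos h] at hg
      refine ⟨Classical.choose h, (exists_good_Rule_trunc zen _ a _).mp (Classical.choose_spec h), ?_⟩
      intro z
      rw [hg]
      show eps * D (trunc a (exists_good_g zen)) a z (Classical.choose h) = _
      rw [exists_good_D_trunc]
    · right
      rw [dif_neg h] at hg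
      refine ⟨?_, ?_⟩
      · intro η hη
        exact h ⟨η, (exists_good_Rule_trunc zen _ a _).mpr hη⟩
      · intro z
        rw [hg]
  refine ⟨exists_good_g zen, ?_, key⟩
  intro a
  rcases key a with ⟨η, h1, h2⟩ | ⟨_, h2⟩
  · exact Or.inl ⟨η, h1.1, h2⟩
  · exact Or.inr h2

end


end Pool.Agent.Helper893.Klee
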