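import Pool.Agent.Helper893.Klee.Base

set_option autoImplicit false

namespace Pool.Agent.Helper893.Klee

universe u


-- TARGET
open Filter Topology in
/-- nested closed bounded midpoint-closed sets in a Hilbert space -/
theorem exists_max_mid_nested {X : Type u} [NormedAddCommGroup X] [InnerProductSpace ℝ X]
    [CompleteSpace X] (C : ℕ → Set X) (hc : ∀ n, IsClosed (C n)) (hne : ∀ n, (C n).Nonempty)
    (hanti : ∀ n m, n ≤ m → C m ⊆ C n) (B : ℝ) (hb : ∀ x ∈ C 0, ‖x‖ ≤ B)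
    (hmid : ∀ n, ∀ x ∈ C n, ∀ y ∈ C n, (1 / 2 : ℝ) • (x + y) ∈ C n) :
    ∃ x, ∀ n, x ∈ C n := by
  set r : ℕ → ℝ := fun n => sInf ((fun x : X => ‖x‖ ^ 2) '' C n) with hr
  have hbb : ∀ n, BddBelow ((fun x : X => ‖x‖ ^ 2) '' C n) := by
    intro n
    refine ⟨0, ?_⟩
    rintro _ ⟨x, -, rfl⟩
    positivity
  have hrle : ∀ n, ∀ x ∈ C n, r n ≤ ‖x‖ ^ 2 := fun n x hx => csInf_le (hbb n) ⟨x, hx, rfl⟩
  have hrmono : Monotone r := by
    intro n m hnm
    apply csInf_le_csInf (hbb n) ((hne m).image _)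
    exact Set.image_mono (hanti n m hnm)
  have hrB : ∀ n, r n ≤ B ^ 2 := by
    intro n
    obtain ⟨x, hx⟩ := hne n
    have h1 := hb x (hanti 0 n (Nat.zero_le n) hx)
    exact (hrle n x hx).trans (pow_le_pow_left₀ (norm_nonneg _) h1 2)
  have hbdd : BddAbove (Set.range r) := ⟨B ^ 2, by rintro _ ⟨n, rfl⟩; exact hrB n⟩
  have hlim : Tendsto r atTop (𝓝 (⨆ n, r n)) := tendsto_atTop_ciSup hrmono hbdd
  set R : ℝ := ⨆ n, r n with hR
  have hrR : ∀ n, r n ≤ R := fun n => le_ciSup hbdd n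
  have hex : ∀ n : ℕ, ∃ x ∈ C n, ‖x‖ ^ 2 < r n + 1 / ((n : ℝ) + 1) := by
    intro n
    have hpos : (0 : ℝ) < 1 / ((n : ℝ) + 1) := by positivity
    obtain ⟨_, ⟨x, hx, rfl⟩, hlt⟩ := exists_lt_of_csInf_lt ((hne n).image (fun x : X => ‖x‖ ^ 2))
      (show sInf ((fun x : X => ‖x‖ ^ 2) '' C n) < r n + 1 / ((n : ℝ) + 1) by
        show r n < _
        linarith)
    exact ⟨x, hx, hlt⟩
  choose x hx hxn using hex
  have hkey : ∀ n m, n ≤ m → ‖x n - x m‖ ^ 2 ≤ 2 * (R - r n) + 4 / ((n : ℝ) + 1) := by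
    intro n m hnm
    have h1 := hrle n _ (hmid n _ (hx n) _ (hanti n m hnm (hx m)))
    have h2 : ‖(1 / 2 : ℝ) • (x n + x m)‖ ^ 2 = 1 / 4 * ‖x n + x m‖ ^ 2 := by
      rw [norm_smul, mul_pow, Real.norm_eq_abs, sq_abs]
      norm_num
    have h3 := parallelogram_law_with_norm ℝ (x n) (x m)
    have h4 := hxn n
    have h5 := hxn m
    have h6 := hrR m
    have h7 : 1 / ((m : ℝ) + 1) ≤ 1 / ((n : ℝ) + 1) := by
      apply one_div_le_one_div_of_le (by positivity)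
      have : (n : ℝ) ≤ m := by exact_mod_cast hnm
      linarith
    have h8 : 4 / ((n : ℝ) + 1) = 4 * (1 / ((n : ℝ) + 1)) := by ring
    rw [h2] at h1
    rw [h8]
    linarith
  have hbt : Tendsto (fun n : ℕ => Real.sqrt (2 * (R - r n) + 4 / ((n : ℝ) + 1))) atTop (𝓝 0) := by
    have h1 : Tendsto (fun n : ℕ => 2 * (R - r n) + 4 / ((n : ℝ) + 1)) atTop (𝓝 (2 * (R - R) + 4 * 0)) := by
      refine ((tendsto_const_nhds.sub hlim).const_mul 2).add ?_
      have h2 := (tendsto_one_div_add_atTop_nhds_zero_nat (𝕜 := ℝ)).const_mul 4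
      refine h2.congr fun n => ?_
      ring
    have h3 := (Real.continuous_sqrt.tendsto _).comp h1
    rw [show 2 * (R - R) + 4 * 0 = (0 : ℝ) by ring, Real.sqrt_zero] at h3
    exact h3
  have hanti2 : ∀ N n, N ≤ n → 2 * (R - r n) + 4 / ((n : ℝ) + 1) ≤ 2 * (R - r N) + 4 / ((N : ℝ) + 1) := by
    intro N n h
    have h1 := hrmono h
    have h2 : 4 / ((n : ℝ) + 1) ≤ 4 / ((N : ℝ) + 1) := by
      have : (N : ℝ) ≤ n := by exact_mod_cast h
      gcongr
    linarith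
  have hcau : CauchySeq x := by
    refine cauchySeq_of_le_tendsto_0 _ ?_ hbt
    intro n m N hn hm
    have haux : ∀ n m, N ≤ n → n ≤ m →
        dist (x n) (x m) ≤ Real.sqrt (2 * (R - r N) + 4 / ((N : ℝ) + 1)) := by
      intro n m hn hnm
      rw [dist_eq_norm]
      apply Real.le_sqrt_of_sq_le
      exact (hkey n m hnm).trans (hanti2 N n hn)
    rcases le_total n m with h | h
    · exact haux n m hn h
    · rw [dist_comm]
      exact haux m n hm h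
  obtain ⟨y, hy⟩ := cauchySeq_tendsto_of_complete hcau
  refine ⟨y, fun n => ?_⟩
  refine (hc n).mem_of_tendsto hy ?_
  filter_upwards [eventually_ge_atTop n] with m hm
  exact hanti n m hm (hx m)

/-- G2: existence of maximisers of midpoint-concave continuous functions. -/
theorem exists_max_mid {X : Type u} [NormedAddCommGroup X] [InnerProductSpace ℝ X]
    [CompleteSpace X] (S : Set X) (hS : IsClosed S) (hne : S.Nonempty)
    (hb : ∃ C : ℝ, ∀ x ∈ S, ‖x‖ ≤ C)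
    (hmid : ∀ x ∈ S, ∀ y ∈ S, (1 / 2 : ℝ) • (x + y) ∈ S)
    (f : X → ℝ) (hf : ContinuousOn f S)
    (hconc : ∀ x ∈ S, ∀ y ∈ S, (f x + f y) / 2 ≤ f ((1 / 2 : ℝ) • (x + y)))
    (hbdd : ∃ C : ℝ, ∀ x ∈ S, f x ≤ C) :
    ∃ x ∈ S, ∀ y ∈ S, f y ≤ f x := by
  obtain ⟨B, hB⟩ := hb
  obtain ⟨K, hK⟩ := hbdd
  have hbA : BddAbove (f '' S) := ⟨K, by rintro _ ⟨x, hx, rfl⟩; exact hK x hx⟩
  set s : ℝ := sSup (f '' S) with hs
  have hle : ∀ y ∈ S, f y ≤ s := fun y hy => le_csSup hbA ⟨y, hy, rfl⟩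
  obtain ⟨x, hx⟩ := exists_max_mid_nested
    (fun n : ℕ => S ∩ f ⁻¹' Set.Ici (s - 1 / ((n : ℝ) + 1)))
    (fun n => hf.preimage_isClosed_of_isClosed hS isClosed_Ici)
    (by
      intro n
      have hpos : (0 : ℝ) < 1 / ((n : ℝ) + 1) := by positivity
      obtain ⟨_, ⟨x, hx, rfl⟩, hlt⟩ := exists_lt_of_lt_csSup (hne.image f)
        (show s - 1 / ((n : ℝ) + 1) < sSup (f '' S) by rw [← hs]; linarith)
      exact ⟨x, hx, hlt.le⟩)
    (by
      rintro n m hnm x ⟨hx, hx2⟩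
      refine ⟨hx, ?_⟩
      have h7 : 1 / ((m : ℝ) + 1) ≤ 1 / ((n : ℝ) + 1) := by
        apply one_div_le_one_div_of_le (by positivity)
        have : (n : ℝ) ≤ m := by exact_mod_cast hnm
        linarith
      have hx3 : s - 1 / ((m : ℝ) + 1) ≤ f x := hx2
      show s - 1 / ((n : ℝ) + 1) ≤ f x
      linarith) B
    (by
      rintro x ⟨hx, -⟩
      exact hB x hx)
    (by
      rintro n x ⟨hx, hx2⟩ y ⟨hy, hy2⟩
      refine ⟨hmid x hx y hy, ?_⟩
      have h1 := hconc x hx y hy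
      have h2 : s - 1 / ((n : ℝ) + 1) ≤ f x := hx2
      have h3 : s - 1 / ((n : ℝ) + 1) ≤ f y := hy2
      show s - 1 / ((n : ℝ) + 1) ≤ f _
      linarith)
  refine ⟨x, (hx 0).1, fun y hy => ?_⟩
  refine (hle y hy).trans ?_
  apply le_of_forall_pos_sub_le
  intro ε hε
  obtain ⟨n, hn⟩ := exists_nat_one_div_lt hε
  have h2 : s - 1 / ((n : ℝ) + 1) ≤ f x := (hx n).2
  linarith


end Pool.Agent.Helper893.Klee
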