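import Pool.Agent.Helper893.Klee.Base
import Pool.Agent.Helper893.Klee.P_A_mid
import Pool.Agent.Helper893.Klee.P_E_nonneg
import Pool.Agent.Helper893.Klee.P_exists_max_mid
import Pool.Agent.Helper893.Klee.P_key_J
import Pool.Agent.Helper893.Klee.P_w_bounds
import Pool.Agent.Helper893.Klee.P_w_lip

set_option autoImplicit false

namespace Pool.Agent.Helper893.Klee

universe u



section
variable {Γ : Type u} [LinearOrder Γ] [WellFoundedLT Γ]








-- TARGET
/-- X1: maximisers on the truncated set. -/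
theorem exists_max_trunc (g : Γ → HS Γ → ℝ) (hg : Adm g) (a : Γ) (p : HS Γ) :
    ∃ η ∈ A g, (∀ b, a ≤ b → η b = 0) ∧
      ∀ ζ ∈ A g, (∀ b, a ≤ b → ζ b = 0) → w g ζ + inner ℝ p ζ ≤ w g η + inner ℝ p η := by
  set S : Set (HS Γ) := {ζ | ζ ∈ A g ∧ ∀ b, a ≤ b → ζ b = 0} with hSdef
  have hSclosed : IsClosed S := by
    have h1 : S = A g ∩ ⋂ b : Γ, ⋂ _ : a ≤ b, {ζ : HS Γ | ζ b = 0} := by
      ext ζ
      simp [hSdef, Set.mem_iInter]
    rw [h1]
    refine (A_closed g hg).inter (isClosed_iInter fun b => isClosed_iInter fun _ => ?_)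
    have hc : Continuous (fun ζ : HS Γ => ζ b) := by
      have hl : LipschitzWith 1 (fun ζ : HS Γ => ζ b) := by
        refine LipschitzWith.of_dist_le_mul fun x y => ?_
        rw [dist_eq_norm, dist_eq_norm]
        have := lp.norm_apply_le_norm (by norm_num : (2 : ENNReal) ≠ 0) (x - y) b
        simpa using this
      exact hl.continuous
    exact isClosed_eq hc continuous_const
  have h0 : (0 : HS Γ) ∈ S := by
    refine ⟨A_small g hg 0 ?_, fun b _ => ?_⟩
    · simp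
    · simp
  have hmid : ∀ x ∈ S, ∀ y ∈ S, (1 / 2 : ℝ) • (x + y) ∈ S := by
    rintro x ⟨hx, hx'⟩ y ⟨hy, hy'⟩
    refine ⟨A_mid g hg x y hx hy, fun b hb => ?_⟩
    have : ((1 / 2 : ℝ) • (x + y)) b = (1 / 2 : ℝ) * (x b + y b) := by
      change (1 / 2 : ℝ) * ((x b) + (y b)) = _
      rfl
    rw [this, hx' b hb, hy' b hb]
    norm_num
  have hcont : ContinuousOn (fun ζ => w g ζ + inner ℝ p ζ) S := by
    have hw : ContinuousOn (fun ζ => w g ζ) S := by
      have hl : LipschitzOnWith 6 (fun ζ => w g ζ) S := by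
        refine LipschitzOnWith.of_dist_le_mul fun x hx y hy => ?_
        rw [Real.dist_eq, dist_eq_norm]
        exact w_lip g hg x y hx.1.1 hy.1.1
      exact hl.continuousOn
    exact hw.add (continuous_const.inner continuous_id).continuousOn
  have hconc : ∀ x ∈ S, ∀ y ∈ S, ((w g x + inner ℝ p x) + (w g y + inner ℝ p y)) / 2 ≤
      w g ((1 / 2 : ℝ) • (x + y)) + inner ℝ p ((1 / 2 : ℝ) • (x + y)) := by
    intro x hx y hy
    have h1 := key_J g hg x y hx.1.1 hy.1.1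
    have h2 := E_nonneg g hg x y hx.1.1 hy.1.1
    have h3 : inner ℝ p ((1 / 2 : ℝ) • (x + y)) = (inner ℝ p x + inner ℝ p y) / 2 := by
      rw [inner_smul_right, inner_add_right]; ring
    rw [h3]
    linarith
  have hbdd : ∃ C : ℝ, ∀ x ∈ S, w g x + inner ℝ p x ≤ C := by
    refine ⟨‖p‖, fun x hx => ?_⟩
    have h1 := (w_bounds g hg x hx.1.1).2
    have h2 : inner ℝ p x ≤ ‖p‖ * ‖x‖ := real_inner_le_norm p x
    have h3 : ‖p‖ * ‖x‖ ≤ ‖p‖ * 1 := mul_le_mul_of_nonneg_left hx.1.1 (norm_nonneg _)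
    linarith
  obtain ⟨η, hη, hmax⟩ := exists_max_mid S hSclosed ⟨0, h0⟩ ⟨1, fun x hx => hx.1.1⟩ hmid
    (fun ζ => w g ζ + inner ℝ p ζ) hcont hconc hbdd
  exact ⟨η, hη.1, hη.2, fun ζ hζ hζ' => hmax ζ ⟨hζ, hζ'⟩⟩

end


end Pool.Agent.Helper893.Klee
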