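import Pool.Agent.Helper893.Klee.Base

set_option autoImplicit false

namespace Pool.Agent.Helper893.Klee

universe u


-- TARGET
/-- G4: truncation. -/
theorem exists_trunc {Γ : Type u} [LinearOrder Γ] (a : Γ) (z : HS Γ) :
    ∃ z' : HS Γ, (∀ b, b < a → z' b = z b) ∧ (∀ b, a ≤ b → z' b = 0) ∧ ‖z'‖ ≤ ‖z‖ := by
  classical
  have h2 : (0 : ℝ) < (2 : ENNReal).toReal := by norm_num
  let f : Γ → ℝ := fun b => if b < a then z b else 0
  have hle : ∀ b, ‖f b‖ ^ (2 : ENNReal).toReal ≤ ‖z b‖ ^ (2 : ENNReal).toReal := by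
    intro b
    apply Real.rpow_le_rpow (norm_nonneg _) _ h2.le
    by_cases h : b < a
    · simp [f, h]
    · simp [f, h]
  have hsz : Summable fun b => ‖z b‖ ^ (2 : ENNReal).toReal := (lp.memℓp z).summable h2
  have hsf : Summable fun b => ‖f b‖ ^ (2 : ENNReal).toReal :=
    Summable.of_nonneg_of_le (fun b => Real.rpow_nonneg (norm_nonneg _) _) hle hsz
  have hf : Memℓp f 2 := memℓp_gen hsf
  refine ⟨⟨f, hf⟩, ?_, ?_, ?_⟩
  · intro b hb
    show f b = z b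
    simp [f, hb]
  · intro b hb
    show f b = 0
    simp [f, not_lt.2 hb]
  · have h3 := lp.norm_rpow_eq_tsum h2 (⟨f, hf⟩ : HS Γ)
    have h4 := lp.norm_rpow_eq_tsum h2 z
    have h5 : ‖(⟨f, hf⟩ : HS Γ)‖ ^ (2 : ENNReal).toReal ≤ ‖z‖ ^ (2 : ENNReal).toReal := by
      rw [h3, h4]
      exact hsf.tsum_le_tsum hle hsz
    exact (Real.rpow_le_rpow_iff (norm_nonneg _) (norm_nonneg _) h2).1 h5


end Pool.Agent.Helper893.Klee
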