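import Pool.Agent.Helper893.Klee.Base
import Pool.Agent.Helper893.Klee.P_exists_trunc
import Pool.Agent.Helper893.Klee.P_w_bounds

set_option autoImplicit false

namespace Pool.Agent.Helper893.Klee

universe u



section
variable {Γ : Type u} [LinearOrder Γ] [WellFoundedLT Γ]



-- TARGET
/-- X4: the projection argument. -/
theorem max_of_trunc_max (g : Γ → HS Γ → ℝ) (hg : Adm g) (a : Γ) (p : HS Γ)
    (hp : ∀ b, a ≤ b → p b = 0) (M : ℝ)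
    (hmax : ∀ ζ ∈ A g, (∀ b, a ≤ b → ζ b = 0) → w g ζ + inner ℝ p ζ ≤ M) :
    ∀ ζ ∈ A g, w g ζ + inner ℝ p ζ ≤ M := by
  intro ζ hζ
  obtain ⟨ζ', h1, h2, h3⟩ := exists_trunc a ζ
  have hz1 : ‖ζ‖ ≤ 1 := hζ.1
  have hz2 : ‖ζ‖ ^ 2 / 2 ≤ 1 / 2 + w g ζ := hζ.2
  have h4 : ‖ζ'‖ ≤ 1 := h3.trans hz1
  have h5 := w_trunc_le g hg a ζ ζ' hz1 h4 h1 h2
  have h6 : ‖ζ'‖ ^ 2 ≤ ‖ζ‖ ^ 2 := pow_le_pow_left₀ (norm_nonneg _) h3 2
  have h7 : ζ' ∈ A g := ⟨h4, by linarith⟩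
  have h8 := hmax ζ' h7 h2
  have h9 : inner ℝ p ζ' = (inner ℝ p ζ : ℝ) := by
    rw [lp.inner_eq_tsum, lp.inner_eq_tsum]
    refine tsum_congr fun b => ?_
    rcases lt_or_ge b a with hb | hb
    · rw [h1 b hb]
    · rw [hp b hb, inner_zero_left, inner_zero_left]
  rw [h9] at h8
  linarith

end


end Pool.Agent.Helper893.Klee
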