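import Pool.Agent.Helper893.Klee.Base
import Pool.Agent.Helper893.Klee.P_convex_of_mid
import Pool.Agent.Helper893.Klee.P_exists_enum
import Pool.Agent.Helper893.Klee.P_exists_good
import Pool.Agent.Helper893.Klee.P_A_mid
import Pool.Agent.Helper893.Klee.P_exists_max_trunc
import Pool.Agent.Helper893.Klee.P_contact_of_flat
import Pool.Agent.Helper893.Klee.P_contact_of_active
import Pool.Agent.Helper893.Klee.P_max_of_trunc_max
import Pool.Agent.Helper893.Klee.P_contact_unique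

/-!
# A Hilbert space with a closed convex non-singleton set having unique farthest points
-/

set_option autoImplicit false

namespace Pool.Agent.Helper893.Klee

universe u

section
variable {Γ : Type u} [LinearOrder Γ] [WellFoundedLT Γ]

/-- X5: existence of a contact maximiser. -/
theorem exists_contact (zen : Γ → HS Γ) (g : Γ → HS Γ → ℝ) (hg : Adm g)
    (hrule : ∀ a, (∃ η, Rule zen g a η ∧ ∀ z, g a z = eps * D g a z η) ∨
      ((∀ η, ¬ Rule zen g a η) ∧ ∀ z, g a z = 1))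
    (p : HS Γ) (a : Γ) (hpa : zen a = p) (hp : ∀ b, a ≤ b → p b = 0) :
    ∃ k ∈ A g, ‖k‖ ^ 2 / 2 = 1 / 2 + w g k ∧
      ∀ ζ ∈ A g, w g ζ + inner ℝ p ζ ≤ w g k + inner ℝ p k := by
  obtain ⟨η, hηA, hηs, hηmax⟩ := exists_max_trunc g hg a p
  rcases hrule a with ⟨η', hR, hga⟩ | ⟨hno, -⟩
  · obtain ⟨h1, h2, h3, h4, h5⟩ := hR
    subst hpa
    obtain ⟨k, hkA, hkc, hkv⟩ := contact_of_active g hg a (zen a) η' hp h1 h2 h3 hga
    refine ⟨k, hkA, hkc, ?_⟩
    rw [hkv]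
    exact max_of_trunc_max g hg a (zen a) hp _ h4
  · by_cases hc : ‖η‖ ^ 2 / 2 = 1 / 2 + w g η
    · exact ⟨η, hηA, hc, max_of_trunc_max g hg a p hp _ hηmax⟩
    · have hlt : ‖η‖ ^ 2 / 2 < 1 / 2 + w g η := lt_of_le_of_ne hηA.2 hc
      have hnf : ¬ ∀ b, b < a → g b η = 0 → η b < 0 := by
        intro hnf
        exact hno η ⟨hηA.1, hηs, hlt, by rw [hpa]; exact hηmax, hnf⟩
      push Not at hnf
      obtain ⟨b, hb, hgb, hηb⟩ := hnf
      obtain ⟨k, hkA, hks, hkc, hkv⟩ :=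
        contact_of_flat g hg a p η hηA.1 hηs hlt hηmax b hb hgb hηb
      refine ⟨k, hkA, hkc, ?_⟩
      rw [hkv]
      exact max_of_trunc_max g hg a p hp _ hηmax

end

/-- Main theorem. -/
theorem main : ∃ (Γ : Type u) (S : Set (HS Γ)), IsClosed S ∧ Convex ℝ S ∧ S.Nonempty ∧
    (∀ y : HS Γ, ∃! a : HS Γ, a ∈ S ∧ ∀ b ∈ S, dist y b ≤ dist y a) ∧
    ¬ ∃ x : HS Γ, S = {x} := by
  obtain ⟨Γ, _, _, zen, hzen⟩ := exists_enum.{u}
  obtain ⟨g, hg, hrule⟩ := exists_good zen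
  refine ⟨Γ, A g, A_closed g hg, convex_of_mid _ (A_closed g hg)
    (fun x hx y hy => A_mid g hg x y hx hy), ⟨0, A_small g hg 0 (by simp)⟩, ?_, ?_⟩
  · intro y
    obtain ⟨a, ha, hsupp⟩ := hzen (-y)
    obtain ⟨k, hkA, hkc, hkmax⟩ := exists_contact zen g hg hrule (-y) a ha hsupp
    have hd : ∀ b : HS Γ, dist y b ^ 2 = ‖y‖ ^ 2 + 2 * (‖b‖ ^ 2 / 2 + inner ℝ (-y) b) := by
      intro b
      rw [dist_eq_norm, @norm_sub_sq_real, inner_neg_left]
      ring
    have hle : ∀ b ∈ A g, ∀ c : HS Γ, ‖b‖ ^ 2 / 2 + inner ℝ (-y) b ≤ ‖c‖ ^ 2 / 2 + inner ℝ (-y) c →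
        dist y b ≤ dist y c := by
      intro b _ c h
      have h2 : dist y b ^ 2 ≤ dist y c ^ 2 := by rw [hd, hd]; linarith
      exact (pow_le_pow_iff_left₀ dist_nonneg dist_nonneg (by norm_num)).1 h2
    refine ⟨k, ⟨hkA, ?_⟩, ?_⟩
    · intro b hb
      apply hle b hb
      have h1 := hkmax b hb
      have h2 := hb.2
      linarith
    · rintro x ⟨hxA, hx⟩
      have h1 := hx k hkA
      have h2 : dist y k ^ 2 ≤ dist y x ^ 2 :=
        pow_le_pow_left₀ dist_nonneg h1 2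
      rw [hd, hd] at h2
      have h3 := hkmax x hxA
      have h4 := hxA.2
      have hxc : ‖x‖ ^ 2 / 2 = 1 / 2 + w g x := by linarith
      refine contact_unique zen g hg hrule (-y) x k hxA hkA hxc hkc ?_ hkmax
      intro ζ hζ
      have h5 := hkmax ζ hζ
      linarith
  · rintro ⟨x, hx⟩
    obtain ⟨a, -, -⟩ := hzen 0
    have h0 : (0 : HS Γ) ∈ A g := A_small g hg 0 (by simp)
    have h1 : (lp.single 2 a (1 / 2 : ℝ) : HS Γ) ∈ A g := by
      apply A_small g hg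
      rw [lp.norm_single (by norm_num)]
      norm_num
    rw [hx] at h0 h1
    have h2 : (lp.single 2 a (1 / 2 : ℝ) : HS Γ) = 0 := by
      rw [Set.mem_singleton_iff] at h0 h1
      rw [h1, h0]
    have h3 := congrArg (fun z : HS Γ => z a) h2
    simp at h3

end Pool.Agent.Helper893.Klee
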