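import Pool.Agent.Helper893.Klee.Base
import Pool.Agent.Helper893.Klee.P_g_bounds
import Pool.Agent.Helper893.Klee.P_g_local
import Pool.Agent.Helper893.Klee.P_hs_summable

set_option autoImplicit false

namespace Pool.Agent.Helper893.Klee

universe u


section
variable {Γ : Type u} [LinearOrder Γ] [WellFoundedLT Γ]





theorem zero_unique_psi_lt {x y : ℝ} (hxy : x < y) (hx : x < 0) : psi y < psi x := by
  unfold psi np
  rcases le_total 0 y with hy | hy
  · rw [max_eq_right (by linarith : -y ≤ 0), max_eq_left (by linarith : 0 ≤ -x)]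
    nlinarith
  · rw [max_eq_left (by linarith : 0 ≤ -y), max_eq_left (by linarith : 0 ≤ -x)]
    nlinarith

theorem zero_unique_psi_le {x y : ℝ} (hxy : x ≤ y) : psi y ≤ psi x := by
  unfold psi np
  have h1 : max (-y) 0 ≤ max (-x) 0 := max_le_max (by linarith) le_rfl
  have h2 : 0 ≤ max (-y) 0 := le_max_right _ _
  nlinarith

theorem zero_unique_ph_bound (g : Γ → HS Γ → ℝ) (hg : Adm g) (z : HS Γ) (hz : ‖z‖ ≤ 1) (b : Γ) :
    |ph g b z| ≤ 2 * |z b| := by
  have hzb : |z b| ≤ 1 := by
    have := lp.norm_apply_le_norm (by norm_num : (2 : ENNReal) ≠ 0) z b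
    rw [Real.norm_eq_abs] at this
    exact this.trans hz
  have hgb := g_bounds g hg z hz b
  have hpsi : |psi (z b)| ≤ |z b| := by
    unfold psi np
    rw [abs_of_nonneg (by positivity)]
    have h1 : max (-(z b)) 0 ≤ |z b| := max_le (neg_le_abs _) (abs_nonneg _)
    have h2 : 0 ≤ max (-(z b)) 0 := le_max_right _ _
    nlinarith [abs_nonneg (z b)]
  unfold ph
  calc |g b z * z b - psi (z b)| ≤ |g b z * z b| + |psi (z b)| := abs_sub _ _
    _ ≤ 1 * |z b| + |z b| := by
        rw [abs_mul, abs_of_nonneg hgb.1]
        have := mul_le_mul_of_nonneg_right hgb.2 (abs_nonneg (z b))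
        linarith
    _ = 2 * |z b| := by ring

-- TARGET
/-- Z: uniqueness of the zero. -/
theorem zero_unique (g : Γ → HS Γ → ℝ) (hg : Adm g) (a : Γ) (z η : HS Γ) (hz : ‖z‖ ≤ 1)
    (hη : ‖η‖ ≤ 1) (hnf : ∀ b, b < a → g b η = 0 → η b < 0) (hD : D g a z η = 0) :
    ∀ b, b < a → z b = η b := by
  have hsum : Summable (fun b : Γ => if b < a then (ph g b z - ph g b η) ^ 2 else 0) := by
    refine Summable.of_nonneg_of_le (f := fun b => 8 * (z b) ^ 2 + 8 * (η b) ^ 2) ?_ ?_ ?_
    · intro b; split_ifs <;> positivity
    · intro b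
      split_ifs
      · have h1 := zero_unique_ph_bound g hg z hz b
        have h2 := zero_unique_ph_bound g hg η hη b
        have h3 : |ph g b z - ph g b η| ≤ 2 * |z b| + 2 * |η b| :=
          (abs_sub _ _).trans (add_le_add h1 h2)
        rw [← sq_abs (ph g b z - ph g b η), ← sq_abs (z b), ← sq_abs (η b)]
        nlinarith [abs_nonneg (ph g b z - ph g b η), abs_nonneg (z b), abs_nonneg (η b),
          sq_nonneg (|z b| - |η b|)]
      · positivity
    · exact ((hs_summable z).mul_left 8).add ((hs_summable η).mul_left 8)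
  have h0 : ∀ b, b < a → ph g b z = ph g b η := by
    intro b hb
    have hz0 := (hasSum_zero_iff_of_nonneg (f := fun b : Γ =>
      if b < a then (ph g b z - ph g b η) ^ 2 else 0)
      (by intro b; split_ifs <;> positivity)).1 (by
        have := hsum.hasSum
        unfold D at hD
        rw [hD] at this
        exact this)
    have := congrFun hz0 b
    simp only [hb, if_true, Pi.zero_apply] at this
    have := pow_eq_zero_iff (n := 2) (by norm_num) |>.1 this
    linarith
  intro b
  induction b using WellFoundedLT.induction with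
  | _ b ih =>
    intro hb
    have hloc : g b z = g b η := g_local g hg b z η (fun c hc => ih c hc (hc.trans hb))
    have e := h0 b hb
    unfold ph at e
    rw [hloc] at e
    have hc : 0 ≤ g b η := (g_bounds g hg η hη b).1
    by_contra hne
    rcases lt_or_gt_of_ne hne with h | h
    · have h1 := zero_unique_psi_le h.le
      have h2 : g b η * (η b - z b) ≤ 0 := by nlinarith
      have h3 : g b η = 0 := by
        by_contra h4
        have : 0 < g b η := lt_of_le_of_ne hc (Ne.symm h4)
        nlinarith
      have h4 := hnf b hb h3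
      have h5 := zero_unique_psi_lt h (h.trans h4)
      rw [h3] at e
      linarith
    · have h1 := zero_unique_psi_le h.le
      have h2 : g b η * (z b - η b) ≤ 0 := by nlinarith
      have h3 : g b η = 0 := by
        by_contra h4
        have : 0 < g b η := lt_of_le_of_ne hc (Ne.symm h4)
        nlinarith
      have h4 := hnf b hb h3
      have h5 := zero_unique_psi_lt h h4
      rw [h3] at e
      linarith

end


end Pool.Agent.Helper893.Klee
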