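import Pool.Agent.Helper893.Klee.Base
import Pool.Agent.Helper893.Klee.P_A_mid
import Pool.Agent.Helper893.Klee.P_E_nonneg
import Pool.Agent.Helper893.Klee.P_g_bounds
import Pool.Agent.Helper893.Klee.P_g_local
import Pool.Agent.Helper893.Klee.P_hs_summable
import Pool.Agent.Helper893.Klee.P_key_J
import Pool.Agent.Helper893.Klee.P_key_induct
import Pool.Agent.Helper893.Klee.P_w_bounds
import Pool.Agent.Helper893.Klee.P_zero_unique

set_option autoImplicit false

namespace Pool.Agent.Helper893.Klee

universe u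


section
variable {Γ : Type u} [LinearOrder Γ] [WellFoundedLT Γ]












-- TARGET
theorem contact_unique_np_pp (y : ℝ) : y = pp y - np y := by
  unfold pp np
  rcases le_total 0 y with h | h
  · rw [max_eq_left h, max_eq_right (by linarith)]; ring
  · rw [max_eq_right h, max_eq_left (by linarith)]; ring

theorem contact_unique_aux {y y' : ℝ} (hn : np y = np y') (hne : y ≠ y') : 0 ≤ y := by
  by_contra h
  push Not at h
  have h1 : np y = -y := by unfold np; exact max_eq_left (by linarith)
  rw [h1] at hn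
  have h2 : 0 < np y' := by rw [← hn]; linarith
  have h3 : y' < 0 := by
    by_contra h4
    push Not at h4
    have h5 : np y' = 0 := by unfold np; exact max_eq_right (by linarith)
    linarith
  have h6 : np y' = -y' := by unfold np; exact max_eq_left (by linarith)
  rw [h6] at hn
  exact hne (by linarith)

/-- U: uniqueness of the contact maximiser. -/
theorem contact_unique (zen : Γ → HS Γ) (g : Γ → HS Γ → ℝ) (hg : Adm g)
    (hrule : ∀ a, (∃ η, Rule zen g a η ∧ ∀ z, g a z = eps * D g a z η) ∨
      ((∀ η, ¬ Rule zen g a η) ∧ ∀ z, g a z = 1))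
    (p k k' : HS Γ) (hk : k ∈ A g) (hk' : k' ∈ A g)
    (hkc : ‖k‖ ^ 2 / 2 = 1 / 2 + w g k) (hkc' : ‖k'‖ ^ 2 / 2 = 1 / 2 + w g k')
    (hmax : ∀ ζ ∈ A g, w g ζ + inner ℝ p ζ ≤ w g k + inner ℝ p k)
    (hmax' : ∀ ζ ∈ A g, w g ζ + inner ℝ p ζ ≤ w g k' + inner ℝ p k') : k = k' := by
  classical
  have hm := A_mid g hg k k' hk hk'
  have h1 := hmax _ hm
  have h2 := hmax' _ hm
  have h3 := key_J g hg k k' hk.1 hk'.1
  have h4 := E_nonneg g hg k k' hk.1 hk'.1
  have h5 : inner ℝ p ((1 / 2 : ℝ) • (k + k')) = (inner ℝ p k + inner ℝ p k') / 2 := by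
    rw [inner_smul_right, inner_add_right]; ring
  have hE : E g k k' = 0 := by
    rw [h5] at h1 h2
    linarith
  have hga : ∀ a, g a k = g a k' := by
    intro a
    have h6 := (key_induct g hg k k' hk.1 hk'.1 a).1
    rw [hE, mul_zero] at h6
    have h7 : (g a k - g a k') ^ 2 = 0 := le_antisymm h6 (sq_nonneg _)
    have h8 := pow_eq_zero_iff (two_ne_zero) |>.1 h7
    linarith
  have hEz := E_zero g hg k k' hk.1 hk'.1 hE
  by_contra hne
  have hex : ∃ c, k c ≠ k' c := by
    by_contra hcon
    push Not at hcon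
    exact hne (lp.ext (funext hcon))
  obtain ⟨c, hc, hcmin⟩ := WellFounded.has_min (wellFounded_lt (α := Γ)) {c | k c ≠ k' c} hex
  have hc' : k c ≠ k' c := hc
  have hdiff : ∀ a, k a ≠ k' a → g a k = 0 ∧ g a k' = 0 := by
    intro a ha
    rcases (hEz a).2 with h | h
    · exfalso
      apply ha
      rw [contact_unique_np_pp (k a), contact_unique_np_pp (k' a), h, (hEz a).1]
    · exact h
  have hother : ∀ d, d ≠ c → k d = k' d := by
    intro d hd
    by_contra hdne
    have hcd : c < d := by
      rcases lt_trichotomy c d with h | h | h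
      · exact h
      · exact absurd h.symm hd
      · exact absurd h (hcmin d hdne)
    obtain ⟨g1, g2⟩ := hdiff d hdne
    rcases hrule d with ⟨η, hR, hη⟩ | ⟨_, h1⟩
    · have heps : eps ≠ 0 := by unfold eps; norm_num
      have e1 : D g d k η = 0 := by
        have := hη k
        rw [g1] at this
        exact (mul_eq_zero.1 this.symm).resolve_left heps
      have e2 : D g d k' η = 0 := by
        have := hη k'
        rw [g2] at this
        exact (mul_eq_zero.1 this.symm).resolve_left heps
      have e3 := zero_unique g hg d k η hk.1 hR.1 hR.2.2.2.2 e1 c hcd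
      have e4 := zero_unique g hg d k' η hk'.1 hR.1 hR.2.2.2.2 e2 c hcd
      exact hc' (e3.trans e4.symm)
    · have := h1 k
      rw [g1] at this
      norm_num at this
  have hw : w g k = w g k' := by
    apply w_congr
    intro a
    by_cases ha : a = c
    · subst ha
      obtain ⟨g1, g2⟩ := hdiff a hc'
      rw [g1, g2, psi, psi, (hEz a).1]
      ring
    · rw [hother a ha, hga a]
  have hnorm : ‖k‖ ^ 2 = ‖k'‖ ^ 2 := by linarith
  rw [hs_norm_sq, hs_norm_sq, (hs_summable k).tsum_eq_add_tsum_ite c,
    (hs_summable k').tsum_eq_add_tsum_ite c] at hnorm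
  have hS : (∑' x, if x = c then 0 else (k x) ^ 2) = ∑' x, if x = c then 0 else (k' x) ^ 2 := by
    apply tsum_congr
    intro x
    by_cases hx : x = c
    · simp [hx]
    · simp [hx, hother x hx]
  rw [hS] at hnorm
  have hsq : (k c) ^ 2 = (k' c) ^ 2 := by linarith
  have p1 : 0 ≤ k c := contact_unique_aux (hEz c).1 hc'
  have p2 : 0 ≤ k' c := contact_unique_aux (hEz c).1.symm hc'.symm
  exact hc' ((sq_eq_sq₀ p1 p2).1 hsq)

end


end Pool.Agent.Helper893.Klee
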